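import Pool.Agent.W715.VC.Limit
import Pool.Agent.W715.VC.Base
import Pool.Agent.H756R3.J.Cont
import Pool.Agent.H105R3.JSanCurl
import Pool.Agent.H309R4.Jones.SanU
import Pool.Agent.H550R3.Jones.SanSkein699
import Pool.Agent.V11171.PP.Core
import Pool.Agent.V11171.PP.Ana
import Pool.Agent.V11171.PP.Tend
import Pool.Agent.V11115.VC.H
import Pool.Agent.V11171.PP.Base

set_option autoImplicit false

/-!
# The phase of the Kashaev invariants of the closed 3-braids `(u ū)^n` with axes, at odd roots of unity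

Let `u` be an arbitrary word in `s_1^{±1}`, `s_2^{±1}`, and let the word `ū` be obtained from `u` by
reversing the order of the letters and replacing `s_1^{±1}`, `s_2^{±1}` by `s_2^{∓1}`, `s_1^{∓1}`.
Let `L(u, n)` be the closure of the 3-braid `(u ū)^n` together with its braid axis.  These links are
amphicheiral.

For every word `u` the number `J_N(L(u, n))` is `-exp (3 π i / N)` times a real number which is at
least `- N^3`.  Consequently the ratio form of the complexified volume conjecture along odd `N` is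
equivalent to its modulus part for these links, and it can hold with no other Chern-Simons invariant
than `0` modulo `π^2`.

The links are written as closures of braids on four strands: strand number `0` runs once around the
other three strands (this is the axis) and the last three strands carry the braid.

The invariants are defined from the R-matrix of `U_q(sl_2)`, with `v = q^{1/2}` and
`{k} = v^k - v^{-k}`.  The `N`-coloured Jones polynomial `cjones N n w v` of the closure of a braid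
word `w` on `n + 1` strands is the entry at the highest weight vector of the partial quantum trace
(over all strands but the first one) of the operator of `w` on the tensor power of the
`N`-dimensional irreducible representation.  The crossings carry the framing correction and the
unknot has value `1`.  The Kashaev invariant is its value at `v = exp (π i / N)`, that is
`q = exp (2 π i / N)`.
-/

namespace Pool.Agent.Results.MP_b30479_gt.PalindromicPhaseOdd

open Finset Filter Topology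

/-- `{n} = v^n - v^{-n}` -/
noncomputable def br (v : ℂ) (n : ℤ) : ℂ := v ^ n - v ^ (-n)

/-- `{n}! = {1} {2} ⋯ {n}` -/
noncomputable def brf (v : ℂ) (n : ℕ) : ℂ := ∏ j ∈ range n, br v ((j : ℤ) + 1)

/-- The positive crossing: the R-matrix of `U_q(sl_2)` on `V_N ⊗ V_N`, `V_N` with basis
`e_0, …, e_{N-1}`, times the framing factor `v^{-(N^2-1)/2}`; `crossP N v p q` is the coefficient
of `e_{p.1} ⊗ e_{p.2}` in the image of `e_{q.1} ⊗ e_{q.2}`:
`e_i ⊗ e_j ↦ ∑_n v^{-(N-1)(1+i+j) + 2(i-n)(j+n) + n(n-1)/2}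
({j+n}! / ({j}! {n}!)) ∏_{t<n} {N-i+t} e_{j+n} ⊗ e_{i-n}`. -/
noncomputable def crossP (N : ℕ) (v : ℂ) : Matrix (Fin N × Fin N) (Fin N × Fin N) ℂ :=
  fun p q => if (p.1 : ℕ) + p.2 = q.1 + q.2 ∧ (q.2 : ℕ) ≤ p.1 then
    v ^ (-((N : ℤ) - 1) * (1 + (q.1 : ℕ) + (q.2 : ℕ)) + 2 * (p.1 : ℕ) * (p.2 : ℕ)) *
      v ^ (((p.1 : ℕ) - q.2) * ((p.1 : ℕ) - q.2 - 1) / 2) *
      (brf v p.1 / (brf v q.2 * brf v ((p.1 : ℕ) - q.2))) *
      ∏ t ∈ range ((p.1 : ℕ) - q.2), br v ((N : ℤ) - (q.1 : ℕ) + t)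
    else 0

/-- The negative crossing, inverse of `crossP N v`:
`e_i ⊗ e_j ↦ ∑_n (-1)^n v^{(N-1)(1+i+j) - 2ij - n(n-1)/2}
({i+n}! / ({i}! {n}!)) ∏_{t<n} {N-j+t} e_{j-n} ⊗ e_{i+n}`. -/
noncomputable def crossN (N : ℕ) (v : ℂ) : Matrix (Fin N × Fin N) (Fin N × Fin N) ℂ :=
  fun p q => if (p.1 : ℕ) + p.2 = q.1 + q.2 ∧ (q.1 : ℕ) ≤ p.2 then
    (-1) ^ ((p.2 : ℕ) - q.1) *
      v ^ (((N : ℤ) - 1) * (1 + (q.1 : ℕ) + (q.2 : ℕ)) - 2 * (q.1 : ℕ) * (q.2 : ℕ)) /
      v ^ (((p.2 : ℕ) - q.1) * ((p.2 : ℕ) - q.1 - 1) / 2) *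
      (brf v p.2 / (brf v q.1 * brf v ((p.2 : ℕ) - q.1))) *
      ∏ t ∈ range ((p.2 : ℕ) - q.1), br v ((N : ℤ) - (q.2 : ℕ) + t)
    else 0

/-- The braid generator `s_k` on `n` strands (it acts on the strands number `k` and `k + 1`,
counted from `0`) by the crossing matrix `A`. -/
def gen {ι : Type} [DecidableEq ι] (A : Matrix (ι × ι) (ι × ι) ℂ) (n k : ℕ) :
    Matrix (Fin n → ι) (Fin n → ι) ℂ :=
  fun s t => if h : k + 1 < n then
    (if ∀ j : Fin n, (j : ℕ) ≠ k → (j : ℕ) ≠ k + 1 → s j = t j then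
      A (s ⟨k, by omega⟩, s ⟨k + 1, h⟩) (t ⟨k, by omega⟩, t ⟨k + 1, h⟩) else 0)
    else (if s = t then 1 else 0)

/-- The operator of a braid word on `n` strands: the letter `(k, true)` is `s_k`, the letter
`(k, false)` is its inverse; `P` and `Q` are the matrices of the two crossings. -/
def rep {ι : Type} [Fintype ι] [DecidableEq ι] (P Q : Matrix (ι × ι) (ι × ι) ℂ) (n : ℕ)
    (w : List (ℕ × Bool)) : Matrix (Fin n → ι) (Fin n → ι) ℂ :=
  (w.map fun g => gen (if g.2 then P else Q) n g.1).prod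

/-- The partial trace over all strands but the first one, with weights `k`; `n + 1` strands. -/
def tail {ι : Type} [Fintype ι] (k : ι → ℂ) (n : ℕ)
    (A : Matrix (Fin (n + 1) → ι) (Fin (n + 1) → ι) ℂ) : Matrix ι ι ℂ :=
  fun i j => ∑ s : Fin n → ι, (∏ x, k (s x)) * A (Fin.cons i s) (Fin.cons j s)

/-- The `N`-coloured Jones polynomial (unknot `= 1`) of the closure of the braid word `w` on
`n + 1` strands, at `q = v^2`: the entry at the highest weight vector `e_0` of the partial quantum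
trace, with the weights `v^{N-1-2x}` of `K`. -/
noncomputable def cjones (N n : ℕ) (w : List (ℕ × Bool)) (v : ℂ) : ℂ :=
  if h : 0 < N then
    tail (fun x : Fin N => v ^ ((N : ℤ) - 1 - 2 * (x : ℕ))) n
      (rep (crossP N v) (crossN N v) (n + 1) w) ⟨0, h⟩ ⟨0, h⟩ else 0

/-- The braid axis: strand `0` runs once around the strands `1`, `2` and `3`. -/
def axisWord : List (ℕ × Bool) :=
  [(0, true), (1, true), (2, true), (2, true), (1, true), (0, true)]

/-- A word in the letters `s_1^{±1}` (number `0`) and `s_2^{±1}` (number `1`). -/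
def IsWord (u : List (ℕ × Bool)) : Prop := ∀ l ∈ u, l.1 = 0 ∨ l.1 = 1

/-- The letter `s_2^{∓1}` for `s_1^{±1}` and `s_1^{∓1}` for `s_2^{±1}`. -/
def flip (l : ℕ × Bool) : ℕ × Bool := (1 - l.1, !l.2)

/-- The word `ū`. -/
def bar (u : List (ℕ × Bool)) : List (ℕ × Bool) := (u.map flip).reverse

/-- The image of a word in `SL(2, ℤ)`: `s_1` is `(1, 1; 0, 1)` and `s_2` is `(1, 0; -1, 1)`. -/
def mat (u : List (ℕ × Bool)) : Matrix (Fin 2) (Fin 2) ℤ :=
  (u.map fun l => if l.1 = 0 then (if l.2 then !![1, 1; 0, 1] else !![1, -1; 0, 1])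
    else (if l.2 then !![1, 0; -1, 1] else !![1, 0; 1, 1])).prod

/-- The word on four strands of the link `L(u, n)`: the axis, and then the braid
`(u ū)^n` on the strands `1`, `2` and `3`. -/
def linkWord (u : List (ℕ × Bool)) (n : ℕ) : List (ℕ × Bool) :=
  axisWord ++ (List.replicate n ((u ++ bar u).map fun l => (l.1 + 1, l.2))).flatten

/-- `v_N = exp (π i / N)`, so that `q = v_N^2 = exp (2 π i / N)`. -/
noncomputable def root (N : ℕ) : ℂ := Complex.exp (Real.pi * Complex.I / N)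

/-- The Kashaev invariant of `L(u, n)`. -/
noncomputable def kashaev (u : List (ℕ × Bool)) (n N : ℕ) : ℂ := cjones N 3 (linkWord u n) (root N)

/-! ### Checks of the definitions (not part of the result) -/

/-- For `N = 2` the crossings satisfy the skein relation of the Jones polynomial. -/
theorem skein (v : ℂ) (hv : v ≠ 0) (h1 : br v 1 ≠ 0) :
    v ^ 2 • crossP 2 v - (v ^ 2)⁻¹ • crossN 2 v =
      (v - v⁻¹) • (1 : Matrix (Fin 2 × Fin 2) (Fin 2 × Fin 2) ℂ) :=
  Pool.Agent.H550R3.Jones.taskSanSkein v hv h1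

/-- The two crossings are inverse to each other. -/
theorem cross_inverse (N : ℕ) (v : ℂ) (hv : v ≠ 0)
    (h : ∀ k : ℕ, 0 < k → k < N → br v k ≠ 0) :
    crossP N v * crossN N v = 1 ∧ crossN N v * crossP N v = 1 :=
  Pool.Agent.H309R4.Jones.SanI.taskSanInv Pool.Agent.H345J.taskMod Pool.Agent.H345J.taskInv
    Pool.Agent.H559R3.J.taskCross N v ⟨hv, h⟩

/-- The Yang-Baxter equation, for every colour. -/
theorem yang_baxter (N : ℕ) (v : ℂ) (hv : v ≠ 0) (h : ∀ k : ℕ, 0 < k → k < N → br v k ≠ 0) :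
    gen (crossP N v) 3 0 * gen (crossP N v) 3 1 * gen (crossP N v) 3 0 =
      gen (crossP N v) 3 1 * gen (crossP N v) 3 0 * gen (crossP N v) 3 1 :=
  Pool.Agent.H927R2.J.SanYB.taskSanYB Pool.Agent.H345J.taskMod Pool.Agent.H345J.taskInt
    Pool.Agent.H345J.taskInv Pool.Agent.H667J.taskHex1 Pool.Agent.H22R3.J.taskNat
    Pool.Agent.H559R3.J.taskCross N v ⟨hv, h⟩

/-- Curls may be removed: the framing is normalised. -/
theorem curl (N : ℕ) (v : ℂ) (hv : v ≠ 0) (h : ∀ k : ℕ, 0 < k → k < N → br v k ≠ 0) :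
    (fun i j => ∑ x : Fin N, v ^ ((N : ℤ) - 1 - 2 * (x : ℕ)) * crossP N v (i, x) (j, x)) =
      (1 : Matrix (Fin N) (Fin N) ℂ) ∧
    (fun i j => ∑ x : Fin N, v ^ ((N : ℤ) - 1 - 2 * (x : ℕ)) * crossN N v (i, x) (j, x)) =
      (1 : Matrix (Fin N) (Fin N) ℂ) :=
  Pool.Agent.H105R3.JSan.taskSanCurl N v ⟨hv, h⟩

/-- The unknot has the value `1`. -/
theorem unknot (N : ℕ) (v : ℂ) (hN : 0 < N) (hv : v ≠ 0)
    (h : ∀ k : ℕ, 0 < k → k < N → br v k ≠ 0) :
    cjones N 0 [] v = 1 ∧ cjones N 1 [(0, true)] v = 1 ∧ cjones N 1 [(0, false)] v = 1 :=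
  Pool.Agent.H309R4.Jones.SanU.taskSanUnknot N v hN ⟨hv, h⟩

/-! ### Bridges -/

lemma cjones_eq (N n : ℕ) (w : List (ℕ × Bool)) (v : ℂ) :
    cjones N n w v = Pool.Agent.H550R3.Jones.cjones N n w v := rfl

lemma link_eq (u : List (ℕ × Bool)) (n : ℕ) : linkWord u n =
    Pool.Agent.W715.VC.axisClosure
      (Pool.Agent.W715.VC.wpow (u ++ Pool.Agent.W715.VC.dual u) n) := by
  unfold linkWord Pool.Agent.W715.VC.axisClosure Pool.Agent.W715.VC.wpow
  congr 1
  rw [List.map_flatten, List.map_replicate]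
  rfl

lemma kashaev_norm {N : ℕ} (hN : 0 < N) (u : List (ℕ × Bool)) (n : ℕ) : ‖kashaev u n N‖ =
    ‖(Pool.Agent.W715.VC.rep3 N
      (Pool.Agent.W715.VC.wpow (u ++ Pool.Agent.W715.VC.dual u) n)).trace‖ := by
  unfold kashaev
  rw [cjones_eq, link_eq]
  exact Pool.Agent.W715.VC.norm_cjones_axis hN _

lemma wpow_one (w : List (ℕ × Bool)) : Pool.Agent.W715.VC.wpow w 1 = w := by
  simp [Pool.Agent.W715.VC.wpow]

/-- The polynomial comparison of the invariants of `L(u, n)` and of `L(u, 1)`. -/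
lemma bounds {u : List (ℕ × Bool)} (hu : IsWord u) {n N : ℕ} (hn : 1 ≤ n) (hN : 1 ≤ N) :
    ‖kashaev u n N‖ ≤ (N : ℝ) ^ 3 * (‖kashaev u 1 N‖ + (N : ℝ) ^ 3) ^ n ∧
      (‖kashaev u 1 N‖ / (N : ℝ) ^ 3) ^ n ≤ ‖kashaev u n N‖ + (N : ℝ) ^ 3 := by
  rw [kashaev_norm (by omega), kashaev_norm (by omega), wpow_one]
  exact Pool.Agent.W715.VC.trace_bounds (by omega)
    (fun l hl => by rcases hu l hl with h | h <;> omega) (by omega)

/-- The comparison of the logarithms. -/
lemma log_bounds {T S P : ℝ} (hT : 0 ≤ T) (hS : 0 ≤ S) (hP : 1 ≤ P) {n : ℕ} (hn : 1 ≤ n)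
    (h1 : S ≤ P * (T + P) ^ n) (h2 : (T / P) ^ n ≤ S + P) :
    |max 0 (Real.log S) - n * max 0 (Real.log T)| ≤ (n + 1) * Real.log P + n * Real.log 2 := by
  have hP0 : 0 < P := by linarith
  have hlP : 0 ≤ Real.log P := Real.log_nonneg hP
  have hl2 : 0 < Real.log 2 := Real.log_pos (by norm_num)
  have hnR : (1 : ℝ) ≤ n := by exact_mod_cast hn
  have hmT : 0 ≤ max 0 (Real.log T) := le_max_left _ _
  have hmS : 0 ≤ max 0 (Real.log S) := le_max_left _ _
  have key : ∀ x : ℝ, 0 ≤ x → x ≤ Real.exp (max 0 (Real.log x)) := by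
    intro x hx
    rcases hx.lt_or_eq with h | h
    · calc x = Real.exp (Real.log x) := (Real.exp_log h).symm
        _ ≤ _ := Real.exp_le_exp.2 (le_max_right _ _)
    · rw [← h]; positivity
  have hPe : P = Real.exp (Real.log P) := (Real.exp_log hP0).symm
  rw [abs_le]
  constructor
  · -- the lower bound of `S`
    by_cases hT1 : T ≤ 1
    · have h0 : max 0 (Real.log T) = 0 := max_eq_left (Real.log_nonpos hT hT1)
      rw [h0]
      nlinarith
    · rw [not_le] at hT1
      have hT0 : 0 < T := by linarith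
      have hmT' : max 0 (Real.log T) = Real.log T := max_eq_right (Real.log_nonneg hT1.le)
      have e1 : (T / P) ^ n ≤ 2 * (P * Real.exp (max 0 (Real.log S))) := by
        have a1 := key S hS
        have a2 : (1 : ℝ) ≤ Real.exp (max 0 (Real.log S)) := Real.one_le_exp hmS
        nlinarith
      have e2 := Real.log_le_log (by positivity) e1
      rw [Real.log_pow, Real.log_div hT0.ne' hP0.ne', Real.log_mul (by norm_num) (by positivity),
        Real.log_mul hP0.ne' (Real.exp_pos _).ne', Real.log_exp] at e2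
      rw [hmT']
      nlinarith
  · -- the upper bound of `S`
    have e1 : S ≤ P * (2 * (P * Real.exp (max 0 (Real.log T)))) ^ n := by
      refine h1.trans (mul_le_mul_of_nonneg_left (pow_le_pow_left₀ (by positivity) ?_ n) hP0.le)
      have a1 := key T hT
      have a2 : (1 : ℝ) ≤ Real.exp (max 0 (Real.log T)) := Real.one_le_exp hmT
      nlinarith
    have e3 : Real.log S ≤ (n + 1) * Real.log P + n * Real.log 2 + n * max 0 (Real.log T) := by
      rcases hS.lt_or_eq with h | h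
      · have e2 := Real.log_le_log h e1
        rw [Real.log_mul hP0.ne' (by positivity), Real.log_pow,
          Real.log_mul (by norm_num) (by positivity), Real.log_mul hP0.ne' (Real.exp_pos _).ne',
          Real.log_exp] at e2
        linarith
      · rw [← h, Real.log_zero]
        positivity
    have e4 : max 0 (Real.log S) ≤ (n + 1) * Real.log P + n * Real.log 2 +
        n * max 0 (Real.log T) := max_le (by positivity) e3
    linarith

lemma main_abs {u : List (ℕ × Bool)} (hu : IsWord u) {n N : ℕ} (hn : 1 ≤ n) (hN : 1 ≤ N) :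
    |max 0 (Real.log ‖kashaev u n N‖) - n * max 0 (Real.log ‖kashaev u 1 N‖)| ≤
      3 * (n + 1) * Real.log N + n * Real.log 2 := by
  obtain ⟨h1, h2⟩ := bounds hu hn hN
  have hP : (1 : ℝ) ≤ (N : ℝ) ^ 3 := one_le_pow₀ (by exact_mod_cast hN)
  have h := log_bounds (norm_nonneg _) (norm_nonneg _) hP hn h1 h2
  rw [Real.log_pow] at h
  push_cast at h
  linarith


lemma kash_pal {u : List (ℕ × Bool)} (hu : IsWord u) (n : ℕ) :
    Pool.Agent.V11171.PP.Pal (kashaev u n) := by
  intro N hN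
  obtain ⟨t, h1, h2⟩ := Pool.Agent.V11171.PP.cjones_phase (N := N) (by omega) (u := u)
    (fun l hl => by rcases hu l hl with h | h <;> omega) n
  refine ⟨t, ?_, h2⟩
  unfold kashaev
  rw [cjones_eq, link_eq]
  exact h1

/-- The invariants of `L(u, n)` are large if the braid is hyperbolic. -/
lemma kash_large {u : List (ℕ × Bool)} (hu : IsWord u) (htr : 2 < (mat (u ++ bar u)).trace) {n : ℕ}
    (hn : 1 ≤ n) : ∀ᶠ N : ℕ in atTop, (N : ℝ) ^ 3 < ‖kashaev u n N‖ := by
  have h := Pool.Agent.V11115.VC.eventually_large (u := u)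
    (fun l hl => by rcases hu l hl with h | h <;> omega) htr hn
  filter_upwards [h, eventually_gt_atTop 0] with N h1 h2
  rw [kashaev_norm h2]
  exact h1

/-- The growth is known for `u = s_1^A`, `A = 1, 2` and `A ≥ 4` (starting library). -/
lemma kash_base {A : ℕ} (hA : 1 ≤ A) (hA3 : A ≠ 3) : ∃ V : ℝ, 0 < V ∧
    Tendsto (fun N : ℕ => 2 * Real.pi * (Real.log ‖kashaev (List.replicate A (0, true)) 1 N‖ / N))
      atTop (𝓝 V) := by
  obtain ⟨V, hV, h⟩ := Pool.Agent.V11171.PP.base_growth hA hA3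
  refine ⟨V, hV, h.congr' ?_⟩
  filter_upwards [eventually_gt_atTop 0] with N hN
  rw [kashaev_norm hN]
  ring

lemma isWord_rep (A : ℕ) : IsWord (List.replicate A (0, true)) := by
  intro l hl
  rw [List.eq_of_mem_replicate hl]
  exact Or.inl rfl

lemma kash_cont (u : List (ℕ × Bool)) (n N : ℕ) (_ : 1 ≤ N) :
    ContinuousAt (cjones N 3 (linkWord u n)) (root N) := by
  have hv : root N = EvenVol.v0 N := rfl
  rw [hv]
  refine Pool.Agent.H756R3.J.taskCont N (EvenVol.v0 N) (Complex.exp_ne_zero _) ?_ _ _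
  intro k hk0 hkN
  exact Pool.Agent.W715.VC.br_ne (by omega) (by omega)

/-- The growth rate `2 π log |J_N(L(u, n))| / N` at `N = 2 k + 1`. -/
noncomputable def rate (u : List (ℕ × Bool)) (n k : ℕ) : ℝ :=
  2 * Real.pi * (Real.log ‖kashaev u n (2 * k + 1)‖ / ((2 * k + 1 : ℕ) : ℝ))

/-- Convergence of the sequence `x` to `z` in `ℂ / i π² ℤ`: after adding suitable elements of
`i π² ℤ` to its terms, `x` converges to `z`. -/
def ConvMod (x : ℕ → ℂ) (z : ℂ) : Prop :=
  ∃ m : ℕ → ℤ, Tendsto (fun k => x k + Complex.I * Real.pi ^ 2 * m k) atTop (𝓝 z)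

/-- `π log (a_{N+2} / a_N)`, with the principal logarithm, for `N = 2 k + 1`,
`a_N = J_N(L(u, n); e^(2 π i / N))`. -/
noncomputable def logRatio (u : List (ℕ × Bool)) (n k : ℕ) : ℂ :=
  Real.pi * Complex.log (kashaev u n (2 * k + 3) / kashaev u n (2 * k + 1))

lemma rate_iff {u : List (ℕ × Bool)} (hu : IsWord u) {n : ℕ} (hn : 1 ≤ n) {V : ℝ} (hV : 0 < V) :
    Tendsto (rate u n) atTop (𝓝 (n * V)) ↔ Tendsto (rate u 1) atTop (𝓝 V) :=
  Pool.Agent.V11171.PP.growth_iff (φ := fun k => 2 * k + 1)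
    (Pool.Agent.V11171.PP.lin_tend (by norm_num))
    (x := fun N => Real.log ‖kashaev u n N‖) (y := fun N => Real.log ‖kashaev u 1 N‖) hn
    (fun _ hN => main_abs hu hn hN) hV

/-- The statement for one word. -/
theorem main (u : List (ℕ × Bool)) (hu : IsWord u) :
    (∀ n N : ℕ, 1 ≤ N → ContinuousAt (cjones N 3 (linkWord u n)) (root N)) ∧
    (∀ n N : ℕ, 1 ≤ N → ∃ t : ℝ,
      kashaev u n N = -Complex.exp (3 * Real.pi * Complex.I / N) * t ∧ -((N : ℝ) ^ 3) ≤ t) ∧
    (∀ n : ℕ, ∀ V : ℝ, 0 < V →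
      (Tendsto (logRatio u n) atTop (𝓝 (V : ℂ)) ↔
      Tendsto (fun k : ℕ => Real.pi *
        Real.log (‖kashaev u n (2 * k + 3)‖ / ‖kashaev u n (2 * k + 1)‖)) atTop (𝓝 V))) ∧
    (∀ n : ℕ, ∀ V C : ℝ, 0 < V → ConvMod (logRatio u n) (V + Complex.I * C) →
      (∃ j : ℤ, C = Real.pi ^ 2 * j) ∧ Tendsto (logRatio u n) atTop (𝓝 (V : ℂ))) ∧
    ∀ m : ℕ, 1 ≤ m → ∀ V : ℝ, 0 < V → Tendsto (rate u m) atTop (𝓝 (m * V)) →
      ∀ n : ℕ, 1 ≤ n →
        Tendsto (rate u n) atTop (𝓝 (n * V)) ∧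
        ∀ᶠ k : ℕ in atTop, kashaev u n (2 * k + 1) ≠ 0 ∧
          kashaev u n (2 * k + 1) =
            -Complex.exp (3 * Real.pi * Complex.I / (2 * k + 1 : ℕ)) * ‖kashaev u n (2 * k + 1)‖ := by
  have hpi := Real.pi_pos
  refine ⟨fun n N hN => kash_cont u n N hN, fun n N hN => ?_, ?_, ?_, ?_⟩
  · exact kash_pal hu n N hN
  · intro n V hV
    exact (kash_pal hu n).log_iff (a := 2) (b := 1) (by norm_num) hV
  · intro n V C hV h
    have h1 := (kash_pal hu n).convMod (a := 2) (b := 1) (by norm_num) hV h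
    exact ⟨h1.2, h1.1⟩
  · intro m hm V hV h n hn
    have hnR : (0 : ℝ) < n := by exact_mod_cast hn
    have h1 : Tendsto (rate u n) atTop (𝓝 (n * V)) :=
      (rate_iff hu hn hV).2 ((rate_iff hu hm hV).1 h)
    have hbig := Pool.Agent.V11171.PP.big_of_growth (J := kashaev u n) (φ := fun k => 2 * k + 1)
      (Pool.Agent.V11171.PP.lin_tend (by norm_num)) (by positivity : 0 < (n : ℝ) * V) h1
    refine ⟨h1, ?_⟩
    filter_upwards [hbig] with k hk
    refine ⟨?_, (kash_pal hu n).big (by omega) hk⟩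
    intro h0
    rw [h0, norm_zero] at hk
    have : (0 : ℝ) ≤ (((2 * k + 1 : ℕ) : ℝ)) ^ 3 := by positivity
    linarith

/-- **The phase of the Kashaev invariants of `L(u, n)` and the complexified volume conjecture at odd
roots of unity.**  For a word `u` in `s_1^{±1}`, `s_2^{±1}` let `L(u, n)` be the closure of
`(u ū)^n` with the braid axis; `kashaev u n N` is `a_N = J_N(L(u, n); e^(2 π i / N))`.
(1) For all `n`, `N ≥ 1` the coloured Jones polynomial of `L(u, n)` is continuous at `v_N`, so that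
`kashaev u n N` is its value at `q = e^(2 π i / N)` in the usual sense.
(2) For all `n` and `N ≥ 1`, `a_N = -e^(3 π i / N) t` with a real number `t ≥ - N^3`.
(3) (The ratio form is its modulus part.)  For `n` and `V > 0`, `π Log (a_{N+2} / a_N) → V` along odd
`N` if and only if `π log |a_{N+2} / a_N| → V` along odd `N`.
(4) (No other Chern-Simons invariant is possible.)  If `π log (a_{N+2} / a_N) → V + i C` in
`ℂ / i π² ℤ` along odd `N`, with `V > 0` and `C` real, then `C` is an integer multiple of `π²`, that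
is `V + i C = V` in `ℂ / i π² ℤ`, and the principal values `π Log (a_{N+2} / a_N)` tend to `V`.
(5) (Growth along odd `N`.)  Let `m ≥ 1`, `V > 0`, and `2 π log |a_N| / N → m V` along odd `N` for
`L(u, m)`.  Then for every `n ≥ 1` the invariants of `L(u, n)` satisfy `2 π log |a_N| / N → n V` along
odd `N`, and for all large odd `N`, `a_N = -e^(3 π i / N) |a_N| ≠ 0`.
(6) (Unconditional phases.)  For `u = s_1^A`, `A = 1, 2` or `A ≥ 4`, and every `n ≥ 1`, the rate tends
to some `V > 0` along odd `N`, and `a_N = -e^(3 π i / N) |a_N| ≠ 0` for all large odd `N`.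
(7) (Unconditional phases for all hyperbolic `L(u, n)`.)  Let the image `M Mᵀ` of `u ū` in
`SL(2, ℤ)`, `M` that of `u`, have a trace larger than `2` (the braid is pseudo-Anosov; this fails only
if `M` is orthogonal).  Then for every `n ≥ 1`, `a_N = -e^(3 π i / N) |a_N| ≠ 0` for all large odd `N`,
and the imaginary parts of `π Log (a_{N+2} / a_N)` tend to `0` along odd `N`. -/
theorem result :
    (∀ u : List (ℕ × Bool), IsWord u →
      (∀ n N : ℕ, 1 ≤ N → ContinuousAt (cjones N 3 (linkWord u n)) (root N)) ∧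
      (∀ n N : ℕ, 1 ≤ N → ∃ t : ℝ,
        kashaev u n N = -Complex.exp (3 * Real.pi * Complex.I / N) * t ∧ -((N : ℝ) ^ 3) ≤ t) ∧
      (∀ n : ℕ, ∀ V : ℝ, 0 < V →
        (Tendsto (logRatio u n) atTop (𝓝 (V : ℂ)) ↔
        Tendsto (fun k : ℕ => Real.pi *
          Real.log (‖kashaev u n (2 * k + 3)‖ / ‖kashaev u n (2 * k + 1)‖)) atTop (𝓝 V))) ∧
      (∀ n : ℕ, ∀ V C : ℝ, 0 < V → ConvMod (logRatio u n) (V + Complex.I * C) →
        (∃ j : ℤ, C = Real.pi ^ 2 * j) ∧ Tendsto (logRatio u n) atTop (𝓝 (V : ℂ))) ∧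
      ∀ m : ℕ, 1 ≤ m → ∀ V : ℝ, 0 < V → Tendsto (rate u m) atTop (𝓝 (m * V)) →
        ∀ n : ℕ, 1 ≤ n →
          Tendsto (rate u n) atTop (𝓝 (n * V)) ∧
          ∀ᶠ k : ℕ in atTop, kashaev u n (2 * k + 1) ≠ 0 ∧
            kashaev u n (2 * k + 1) =
              -Complex.exp (3 * Real.pi * Complex.I / (2 * k + 1 : ℕ)) * ‖kashaev u n (2 * k + 1)‖) ∧
    (∀ A : ℕ, 1 ≤ A → A ≠ 3 → ∀ n : ℕ, 1 ≤ n →
      ∃ V : ℝ, 0 < V ∧ Tendsto (rate (List.replicate A (0, true)) n) atTop (𝓝 V) ∧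
        ∀ᶠ k : ℕ in atTop, kashaev (List.replicate A (0, true)) n (2 * k + 1) ≠ 0 ∧
          kashaev (List.replicate A (0, true)) n (2 * k + 1) =
            -Complex.exp (3 * Real.pi * Complex.I / (2 * k + 1 : ℕ)) *
              ‖kashaev (List.replicate A (0, true)) n (2 * k + 1)‖) ∧
    ∀ u : List (ℕ × Bool), IsWord u → 2 < (mat (u ++ bar u)).trace → ∀ n : ℕ, 1 ≤ n →
      (∀ᶠ k : ℕ in atTop, kashaev u n (2 * k + 1) ≠ 0 ∧
        kashaev u n (2 * k + 1) =
          -Complex.exp (3 * Real.pi * Complex.I / (2 * k + 1 : ℕ)) * ‖kashaev u n (2 * k + 1)‖) ∧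
      Tendsto (fun k => (logRatio u n k).im) atTop (𝓝 0) := by
  refine ⟨fun u hu => main u hu, fun A hA hA3 n hn => ?_, fun u hu htr n hn => ?_⟩
  rotate_left
  · have hφ : Tendsto (fun k => 2 * k + 1) atTop atTop :=
      Pool.Agent.V11171.PP.lin_tend (a := 2) (b := 1) (by norm_num)
    have hb := hφ.eventually (kash_large hu htr hn)
    refine ⟨(kash_pal hu n).ne_of_big hφ hb, ?_⟩
    have h := ((kash_pal hu n).log_im_tend hφ hb).const_mul Real.pi
    rw [mul_zero] at h
    refine h.congr fun k => ?_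
    have e : 2 * (k + 1) + 1 = 2 * k + 3 := by ring
    unfold logRatio
    rw [Complex.im_ofReal_mul, e]
  obtain ⟨V, hV, h⟩ := kash_base hA hA3
  have h1 : Tendsto (rate (List.replicate A (0, true)) 1) atTop (𝓝 (((1 : ℕ) : ℝ) * V)) := by
    rw [Nat.cast_one, one_mul]
    exact h.comp (Pool.Agent.V11171.PP.lin_tend (a := 2) (b := 1) (by norm_num))
  obtain ⟨h2, h3⟩ := (main _ (isWord_rep A)).2.2.2.2 1 le_rfl V hV h1 n hn
  have hnR : (0 : ℝ) < n := by exact_mod_cast hn
  exact ⟨n * V, by positivity, h2, h3⟩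

end Pool.Agent.Results.MP_b30479_gt.PalindromicPhaseOdd
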