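import Pool.Agent.V1150.RP.G
import Pool.Agent.V1199.TB.E
import Pool.Agent.H756R3.J.Cont
import Pool.Agent.H105R3.JSanCurl
import Pool.Agent.H309R4.Jones.SanU
import Pool.Agent.H550R3.Jones.SanSkein699

/-!
# The ratios of the Kashaev invariants of two-bridge links along the odd numbers: lower bounds

For a word `w` in `s_1^{±1}`, `s_2^{±1}` let `K(w)` be the two-bridge link (every two-bridge knot and
link arises) with the following (1,1)-tangle: start with one strand and a cup to its right, perform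
the braid `w` on the three strands (the last letter first), close the strands 1 and 2 by a cap; the
third strand leaves.  The word which performs `s_1^{a_1}`, then `s_2^{-a_2}`, then `s_1^{a_3}`, …,
finally `s_2^{-a_{2m}}` gives `C(a_1, a_2, …, a_{2m})`.

Everything is defined from the R-matrix of `U_q(sl_2)`, with `v = q^{1/2}` and
`{k} = v^k - v^{-k}`.  The Kashaev invariants `a_N` are the values of the `N`-coloured Jones
polynomials (unknot `= 1`) at `v = exp (π i / N)`, that is `q = exp (2 π i / N)`; for links they are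
defined up to a factor of absolute value one (framing, orientation).

For a word `w` let `bar w` be the reversed word with `s_1^{±1}` replaced by `s_2^{∓1}` and `s_2^{±1}` by
`s_1^{∓1}`.  We study the links `K(bar q (q z^{-1} bar (z^{-1}) bar q)^n q)` and
`π log (a_{N+2} / a_N)` along the odd `N` only, for `N → ∞`.
-/

set_option autoImplicit false

namespace Pool.Agent.Results.MP_b30479_gt.RatioLowerBounds

open Finset Filter Topology

/-! ### The coloured Jones polynomial -/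

/-- `{n} = v^n - v^{-n}` -/
noncomputable def br (v : ℂ) (n : ℤ) : ℂ := v ^ n - v ^ (-n)

/-- `{n}! = {1} {2} ⋯ {n}` -/
noncomputable def brf (v : ℂ) (n : ℕ) : ℂ := ∏ j ∈ range n, br v ((j : ℤ) + 1)

/-- The positive crossing: the R-matrix of `U_q(sl_2)` on `V_N ⊗ V_N`, `V_N` with basis
`e_0, …, e_{N-1}`, times the framing factor `v^{-(N^2-1)/2}`; `crossP N v p q` is the coefficient
of `e_{p.1} ⊗ e_{p.2}` in the image of `e_{q.1} ⊗ e_{q.2}`:
`e_i ⊗ e_j ↦ ∑_n v^{-(N-1)(1+i+j) + 2(i-n)(j+n) + n(n-1)/2}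
({j+n}! / ({j}! {n}!)) ∏_{t<n} {N-i+t} e_{j+n} ⊗ e_{i-n}`. -/
noncomputable def crossP (N : ℕ) (v : ℂ) : Matrix (Fin N × Fin N) (Fin N × Fin N) ℂ :=
  fun p q => if (p.1 : ℕ) + p.2 = q.1 + q.2 ∧ (q.2 : ℕ) ≤ p.1 then
    v ^ (-((N : ℤ) - 1) * (1 + (q.1 : ℕ) + (q.2 : ℕ)) + 2 * (p.1 : ℕ) * (p.2 : ℕ)) *
      v ^ (((p.1 : ℕ) - q.2) * ((p.1 : ℕ) - q.2 - 1) / 2) *
      (brf v p.1 / (brf v q.2 * brf v ((p.1 : ℕ) - q.2))) *
      ∏ t ∈ range ((p.1 : ℕ) - q.2), br v ((N : ℤ) - (q.1 : ℕ) + t)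
    else 0

/-- The negative crossing, inverse of `crossP N v`:
`e_i ⊗ e_j ↦ ∑_n (-1)^n v^{(N-1)(1+i+j) - 2ij - n(n-1)/2}
({i+n}! / ({i}! {n}!)) ∏_{t<n} {N-j+t} e_{j-n} ⊗ e_{i+n}`. -/
noncomputable def crossN (N : ℕ) (v : ℂ) : Matrix (Fin N × Fin N) (Fin N × Fin N) ℂ :=
  fun p q => if (p.1 : ℕ) + p.2 = q.1 + q.2 ∧ (q.1 : ℕ) ≤ p.2 then
    (-1) ^ ((p.2 : ℕ) - q.1) *
      v ^ (((N : ℤ) - 1) * (1 + (q.1 : ℕ) + (q.2 : ℕ)) - 2 * (q.1 : ℕ) * (q.2 : ℕ)) /
      v ^ (((p.2 : ℕ) - q.1) * ((p.2 : ℕ) - q.1 - 1) / 2) *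
      (brf v p.2 / (brf v q.1 * brf v ((p.2 : ℕ) - q.1))) *
      ∏ t ∈ range ((p.2 : ℕ) - q.1), br v ((N : ℤ) - (q.2 : ℕ) + t)
    else 0

/-- The crossing `A` on the strands number `k` and `k + 1` (counted from `0`) of `n` strands. -/
def gen {ι : Type} [DecidableEq ι] (A : Matrix (ι × ι) (ι × ι) ℂ) (n k : ℕ) :
    Matrix (Fin n → ι) (Fin n → ι) ℂ :=
  fun s t => if h : k + 1 < n then
    (if ∀ j : Fin n, (j : ℕ) ≠ k → (j : ℕ) ≠ k + 1 → s j = t j then
      A (s ⟨k, by omega⟩, s ⟨k + 1, h⟩) (t ⟨k, by omega⟩, t ⟨k + 1, h⟩) else 0)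
    else (if s = t then 1 else 0)

/-- The operator of a braid word on `n` strands (the last letter acts first): the letter
`(k, true)` is the crossing `P`, the letter `(k, false)` the crossing `Q` on the strands number `k`
and `k + 1`. -/
def rep {ι : Type} [Fintype ι] [DecidableEq ι] (P Q : Matrix (ι × ι) (ι × ι) ℂ) (n : ℕ)
    (w : List (ℕ × Bool)) : Matrix (Fin n → ι) (Fin n → ι) ℂ :=
  (w.map fun g => gen (if g.2 then P else Q) n g.1).prod

/-- The coefficients of the invariant vector `∑_k kap k e_k ⊗ e_{N-1-k}` of `V_N ⊗ V_N`: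
`kap k = (-1)^k v^{k(N-2-k)} {k}! {N-1-k}! / {N-1}!`. -/
noncomputable def kap (N : ℕ) (v : ℂ) (k : ℕ) : ℂ :=
  (-1) ^ k * v ^ ((k : ℤ) * ((N : ℤ) - 2 - k)) * (brf v k * brf v (N - 1 - k) / brf v (N - 1))

/-- The cup: the invariant vector of `V_N ⊗ V_N`. -/
noncomputable def cup (N : ℕ) (v : ℂ) (p : Fin N × Fin N) : ℂ :=
  if (p.1 : ℕ) + p.2 = N - 1 then kap N v p.1 else 0

/-- The cap: the invariant linear form on `V_N ⊗ V_N`. -/
noncomputable def cap (N : ℕ) (v : ℂ) (p : Fin N × Fin N) : ℂ :=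
  if (p.1 : ℕ) + p.2 = N - 1 then (kap N v p.2)⁻¹ else 0

/-- The operator `V_N → V_N` of the (1,1)-tangle: a cup between the strands 2 and 3, the braid word
`w` on three strands, a cap between the strands 1 and 2. -/
noncomputable def tangle (N : ℕ) (w : List (ℕ × Bool)) (v : ℂ) : Matrix (Fin N) (Fin N) ℂ :=
  fun i j => ∑ p : Fin N × Fin N, ∑ q : Fin N × Fin N,
    cap N v p * rep (crossP N v) (crossN N v) 3 w ![p.1, p.2, i] ![j, q.1, q.2] * cup N v q

/-- The `N`-coloured Jones polynomial of the two-bridge link `K(w)` (unknot `= 1`; all components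
coloured `N`) at `q = v^2`: the entry of the (1,1)-tangle operator at the highest weight vector
`e_0`. -/
noncomputable def jones (w : List (ℕ × Bool)) (N : ℕ) (v : ℂ) : ℂ :=
  if h : 0 < N then tangle N w v ⟨0, h⟩ ⟨0, h⟩ else 0

/-- `v_N = exp (π i / N)`, so that `q = v_N^2 = exp (2 π i / N)`. -/
noncomputable def root (N : ℕ) : ℂ := Complex.exp (Real.pi * Complex.I / N)

/-- The Kashaev invariant of `K(w)`. -/
noncomputable def kashaev (w : List (ℕ × Bool)) (N : ℕ) : ℂ := jones w N (root N)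

/-- A word in the letters `s_1^{±1}` (number `0`) and `s_2^{±1}` (number `1`); `true` is the
positive crossing. -/
def IsWord (w : List (ℕ × Bool)) : Prop := ∀ l ∈ w, l.1 < 2

/-- The letter `s_2^{∓1}` for `s_1^{±1}` and `s_1^{∓1}` for `s_2^{±1}`. -/
def flip (l : ℕ × Bool) : ℕ × Bool := (1 - l.1, !l.2)

/-- The word `bar w`. -/
def bar (w : List (ℕ × Bool)) : List (ℕ × Bool) := (w.map flip).reverse

/-- The inverse word. -/
def inverse (w : List (ℕ × Bool)) : List (ℕ × Bool) := (w.map fun l => (l.1, !l.2)).reverse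

/-- The word `bar q (q z^{-1} bar (z^{-1}) bar q)^n q`. -/
def amplified (q z : List (ℕ × Bool)) (n : ℕ) : List (ℕ × Bool) :=
  bar q ++ ((List.replicate n (q ++ (inverse z ++ (bar (inverse z) ++ bar q)))).flatten ++ q)

/-- The word `s_1^m` (for `k = 0`) or `s_2^m` (for `k = 1`), `m` an integer. -/
def syl (k : ℕ) (m : ℤ) : List (ℕ × Bool) := List.replicate m.natAbs (k, decide (0 ≤ m))

/-- The word which performs `s_1^a`, then `n` times `s_2^{-b}` followed by `s_1^b`, then `s_2^{-a}`.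
This is the two-bridge link `C(a, b, …, b, a)` with `2 n` entries `b`. -/
def word (a b : ℤ) (n : ℕ) : List (ℕ × Bool) :=
  syl 1 (-a) ++ ((List.replicate n (syl 0 b ++ syl 1 (-b))).flatten ++ syl 0 a)

/-! ### Odd roots of unity -/

/-- `liminf 2 π log |a_N| / N ≥ L`, `N → ∞` odd -/
def OddGrowthAtLeast (w : List (ℕ × Bool)) (L : ℝ) : Prop :=
  ∀ ε : ℝ, 0 < ε → ∀ᶠ N : ℕ in atTop, Odd N →
    Real.exp ((L / (2 * Real.pi) - ε) * N) ≤ ‖kashaev w N‖

/-- `limsup 2 π log |a_N| / N ≤ U`, `N → ∞` odd -/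
def OddGrowthAtMost (w : List (ℕ × Bool)) (U : ℝ) : Prop :=
  ∀ ε : ℝ, 0 < ε → ∀ᶠ N : ℕ in atTop, Odd N →
    ‖kashaev w N‖ ≤ Real.exp ((U / (2 * Real.pi) + ε) * N)

/-- `π Log (a_{N+2} / a_N)` (principal logarithm) for the odd number `N = 2 m + 1` -/
noncomputable def logRatio (w : List (ℕ × Bool)) (m : ℕ) : ℂ :=
  Real.pi * Complex.log (kashaev w (2 * m + 3) / kashaev w (2 * m + 1))

/-- `x m → v` in `ℂ / i π² ℤ` -/
def ConvMod (x : ℕ → ℂ) (v : ℂ) : Prop :=
  ∃ k : ℕ → ℤ, Tendsto (fun m => x m + Complex.I * Real.pi ^ 2 * (k m : ℂ)) atTop (𝓝 v)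

/-- The conclusions for the link `K(w)` and the number `L`: `a_N` is a positive real number for
every `N ≥ 1`; the numbers `π Log (a_{N+2} / a_N)`, `N` odd, are real and their limit superior is at
least `L`; if they converge to `v` in `ℂ / i π² ℤ` then `Re v ≥ L` and `Im v ∈ π² ℤ`. -/
def RatioBound (w : List (ℕ × Bool)) (L : ℝ) : Prop :=
  (∀ N : ℕ, 1 ≤ N → ∃ r : ℝ, 0 < r ∧ kashaev w N = r) ∧
  (∀ m : ℕ, (logRatio w m).im = 0) ∧
  (∀ ε : ℝ, 0 < ε → ∃ᶠ m : ℕ in atTop, L - ε ≤ (logRatio w m).re) ∧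
  (∀ v : ℂ, ConvMod (logRatio w) v → L ≤ v.re ∧ ∃ j : ℤ, v.im = Real.pi ^ 2 * j)

/-! ### The hyperbolic volumes

The complement of `C(A, A)` has a canonical ideal triangulation (Sakuma and Weeks; Gueritaud and
Futer) with `2 A - 3` layers of two ideal tetrahedra.  Its angle structures are parametrised by
`w_0, …, w_{2A-2}` with `w_0 = w_{2A-2} = π`.  By Casson and Rivin the maximum of the volume over the
angle structures is the hyperbolic volume. -/

/-- Lobachevsky's function `Λ(x) = -∫_0^x log |2 sin t| dt`. -/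
noncomputable def Lob (x : ℝ) : ℝ := -∫ t in (0 : ℝ)..x, Real.log |2 * Real.sin t|

/-- first dihedral angle of the tetrahedra of layer `i` -/
noncomputable def angXC (A : ℕ) (w : ℕ → ℝ) (i : ℕ) : ℝ :=
  if i + 1 = A then (w (i - 1) + w i - w (i + 1)) / 2 else (w (i - 1) + w (i + 1)) / 2

/-- second dihedral angle of the tetrahedra of layer `i` -/
noncomputable def angYC (A : ℕ) (w : ℕ → ℝ) (i : ℕ) : ℝ :=
  if i + 1 = A then (-w (i - 1) + w i + w (i + 1)) / 2
  else (2 * w i - w (i - 1) - w (i + 1)) / 2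

/-- third dihedral angle of the tetrahedra of layer `i` -/
noncomputable def angZC (w : ℕ → ℝ) (i : ℕ) : ℝ := Real.pi - w i

/-- the angle structures -/
def IsAngleC (A : ℕ) (w : ℕ → ℝ) : Prop :=
  w 0 = Real.pi ∧ w (A + A - 2) = Real.pi ∧
    ∀ i, 1 ≤ i → i ≤ A + A - 3 → 0 < angXC A w i ∧ 0 < angYC A w i ∧ 0 < angZC w i

/-- the volume of an angle structure: two ideal tetrahedra in every layer -/
noncomputable def volC (A : ℕ) (w : ℕ → ℝ) : ℝ :=
  ∑ i ∈ Icc 1 (A + A - 3), 2 * (Lob (angXC A w i) + Lob (angYC A w i) + Lob (angZC w i))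

/-- `W n` is the hyperbolic volume of the complement of `C(n, n)` for `n ≥ 2`;
`W 0 = W 1 = 0`, `W 2 = 4 Λ(π/6) = Vol (4_1)`, `W 3 = 8 Λ(π/6)`. -/
def IsVolume (W : ℕ → ℝ) : Prop :=
  W 0 = 0 ∧ W 1 = 0 ∧ W 2 = 4 * Lob (Real.pi / 6) ∧ W 3 = 8 * Lob (Real.pi / 6) ∧
    ∀ A, 4 ≤ A → IsGreatest {x : ℝ | ∃ w, IsAngleC A w ∧ volC A w = x} (W A)

/-! ### Checks of the definitions (not part of the result) -/

/-- For `N = 2` the crossings satisfy the skein relation of the Jones polynomial. -/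
theorem skein (v : ℂ) (hv : v ≠ 0) (h1 : br v 1 ≠ 0) :
    v ^ 2 • crossP 2 v - (v ^ 2)⁻¹ • crossN 2 v =
      (v - v⁻¹) • (1 : Matrix (Fin 2 × Fin 2) (Fin 2 × Fin 2) ℂ) :=
  Pool.Agent.H550R3.Jones.taskSanSkein v hv h1

/-- The two crossings are inverse to each other. -/
theorem cross_inverse (N : ℕ) (v : ℂ) (hv : v ≠ 0)
    (h : ∀ k : ℕ, 0 < k → k < N → br v k ≠ 0) :
    crossP N v * crossN N v = 1 ∧ crossN N v * crossP N v = 1 :=
  Pool.Agent.H309R4.Jones.SanI.taskSanInv Pool.Agent.H345J.taskMod Pool.Agent.H345J.taskInv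
    Pool.Agent.H559R3.J.taskCross N v ⟨hv, h⟩

/-- The Yang-Baxter equation, for every colour. -/
theorem yang_baxter (N : ℕ) (v : ℂ) (hv : v ≠ 0) (h : ∀ k : ℕ, 0 < k → k < N → br v k ≠ 0) :
    gen (crossP N v) 3 0 * gen (crossP N v) 3 1 * gen (crossP N v) 3 0 =
      gen (crossP N v) 3 1 * gen (crossP N v) 3 0 * gen (crossP N v) 3 1 :=
  Pool.Agent.H927R2.J.SanYB.taskSanYB Pool.Agent.H345J.taskMod Pool.Agent.H345J.taskInt
    Pool.Agent.H345J.taskInv Pool.Agent.H667J.taskHex1 Pool.Agent.H22R3.J.taskNat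
    Pool.Agent.H559R3.J.taskCross N v ⟨hv, h⟩

/-- Zigzag: without crossings the tangle is trivial (the unknot has the value `1`). -/
theorem zigzag (N : ℕ) (v : ℂ) (hv : v ≠ 0) (h : ∀ k : ℕ, 0 < k → k < N → br v k ≠ 0) :
    tangle N [] v = 1 :=
  Pool.Agent.W709.RT.zigzag hv h

/-- Curls may be removed: the framing is normalised. -/
theorem curl (N : ℕ) (v : ℂ) (hv : v ≠ 0) (h : ∀ k : ℕ, 0 < k → k < N → br v k ≠ 0) :
    (fun i j => ∑ x : Fin N, v ^ ((N : ℤ) - 1 - 2 * (x : ℕ)) * crossP N v (i, x) (j, x)) =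
      (1 : Matrix (Fin N) (Fin N) ℂ) ∧
    (fun i j => ∑ x : Fin N, v ^ ((N : ℤ) - 1 - 2 * (x : ℕ)) * crossN N v (i, x) (j, x)) =
      (1 : Matrix (Fin N) (Fin N) ℂ) :=
  Pool.Agent.H105R3.JSan.taskSanCurl N v ⟨hv, h⟩

/-- The invariant of the mirror image is the complex conjugate. -/
theorem mirror_image (w : List (ℕ × Bool)) (hw : IsWord w) (N : ℕ) :
    kashaev (w.map fun l => (l.1, !l.2)) N = (starRingEnd ℂ) (kashaev w N) := by
  by_cases h : 0 < N
  · unfold kashaev jones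
    rw [dif_pos h, dif_pos h]
    exact Pool.Agent.V1199.TB.mirror h hw
  · unfold kashaev jones
    rw [dif_neg h, dif_neg h, map_zero]

/-! ### Comparison with the helper files -/

lemma kashaev_eq {N : ℕ} (hN : 0 < N) (w : List (ℕ × Bool)) :
    kashaev w N = Pool.Agent.V1150.RP.kv N hN w := by
  unfold kashaev jones
  rw [dif_pos hN]
  rfl

lemma kashaev_norm (N : ℕ) (w : List (ℕ × Bool)) :
    ‖kashaev w N‖ = Pool.Agent.V1150.RP.kn w N := by
  unfold Pool.Agent.V1150.RP.kn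
  by_cases hN : 0 < N
  · rw [dif_pos hN, kashaev_eq hN]
  · rw [dif_neg hN]
    unfold kashaev jones
    rw [dif_neg hN, norm_zero]

lemma bar_eq (w : List (ℕ × Bool)) : bar w = Pool.Agent.W715.VC.dual w := rfl

lemma amplified_eq (q z : List (ℕ × Bool)) (n : ℕ) :
    amplified q z n = Pool.Agent.V1199.TB.amp q z n := rfl

lemma syl_eq (k : ℕ) (m : ℤ) : syl k m = Pool.Agent.V1199.TB.sy k m := rfl

lemma word_eq (a b : ℤ) (n : ℕ) : word a b n = Pool.Agent.V1199.TB.cz a b n := rfl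

/-- positivity, for every `N` -/
lemma amplified_pos {q z : List (ℕ × Bool)} (hq : IsWord q) (hz : IsWord z) (n N : ℕ)
    (hN : 1 ≤ N) : ∃ r : ℝ, 0 < r ∧ kashaev (amplified q z n) N = r := by
  rw [kashaev_eq hN, amplified_eq]
  exact Pool.Agent.V1199.TB.amp_pos hN hq hz n

lemma word_pos (a b : ℤ) (n N : ℕ) (hN : 1 ≤ N) :
    ∃ r : ℝ, 0 < r ∧ kashaev (word a b n) N = r := by
  rw [kashaev_eq hN, word_eq]
  exact Pool.Agent.V1199.TB.cz_pos hN a b n

lemma kashaev_real {w : List (ℕ × Bool)} {N : ℕ} (h : ∃ r : ℝ, 0 < r ∧ kashaev w N = r) :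
    kashaev w N = (‖kashaev w N‖ : ℂ) ∧ 0 < ‖kashaev w N‖ := by
  obtain ⟨r, hr, h⟩ := h
  rw [h, Complex.norm_real, Real.norm_of_nonneg hr.le]
  exact ⟨rfl, hr⟩

lemma cont (w : List (ℕ × Bool)) (N : ℕ) : ContinuousAt (jones w N) (root N) := by
  unfold jones
  by_cases h : 0 < N
  · simp only [dif_pos h]
    exact Pool.Agent.W709.RT.tang_cont (Pool.Agent.W709.RT.v0_ne N) Pool.Agent.W709.RT.br_v0 _ _ _
  · simp only [dif_neg h]
    exact continuousAt_const

lemma ratioBound {w : List (ℕ × Bool)} {L : ℝ}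
    (hp : ∀ N : ℕ, 1 ≤ N → ∃ r : ℝ, 0 < r ∧ kashaev w N = r)
    (h : Pool.Agent.V1199.TB.LwS {N | Odd N} (fun N => ‖kashaev w N‖) L) : RatioBound w L := by
  have ha : ∀ N, 1 ≤ N → 0 < (fun N => ‖kashaev w N‖) N := fun N hN => (kashaev_real (hp N hN)).2
  have e : ∀ m, logRatio w m = (Real.pi : ℂ) *
      Complex.log ((((fun N => ‖kashaev w N‖) (2 * m + 3) : ℝ) : ℂ) /
        (((fun N => ‖kashaev w N‖) (2 * m + 1) : ℝ) : ℂ)) := by
    intro m
    unfold logRatio
    rw [← (kashaev_real (hp (2 * m + 3) (by omega))).1,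
      ← (kashaev_real (hp (2 * m + 1) (by omega))).1]
  have e2 : ∀ m, logRatio w m = ((Real.pi * (Real.log (‖kashaev w (2 * m + 3)‖) -
      Real.log (‖kashaev w (2 * m + 1)‖)) : ℝ) : ℂ) := by
    intro m
    rw [e, Pool.Agent.V1199.TB.log_ratio ha, ← Complex.ofReal_mul]
  refine ⟨hp, ?_, ?_, ?_⟩
  · intro m
    rw [e2, Complex.ofReal_im]
  · intro ε hε
    refine (Pool.Agent.V1199.TB.ratio_freq h hε).mono fun m hm => ?_
    rw [e2, Complex.ofReal_re]
    exact hm
  · rintro v ⟨k, hk⟩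
    refine Pool.Agent.V1199.TB.ratio_bound ha h (k := k) (v := v) ?_
    refine hk.congr fun m => ?_
    rw [e]

/-- **Lower bounds for the ratios of the Kashaev invariants of two-bridge links, `N` odd.**
(1) For all words `w` and all `N` the coloured Jones polynomial of `K(w)` is continuous at `v_N`, so
that `kashaev w N` is its value at `q = e^(2 π i / N)` in the usual sense.
(2) For all words `q`, `z`, all `n` and all `N ≥ 1`, with `K = K(bar q (q z^{-1} bar (z^{-1}) bar q)^n q)`: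
`|a_N(K(bar q q))|^{n+1} ≤ |a_N(K(bar z z))|^n |a_N(K)|`.
(3) If along the odd `N` the growth of `K(bar q q)` is at least `L` and that of `K(bar z z)` at most
`U` then the conclusions `RatioBound` hold for this `K` and `(n + 1) L - n U`.
(4) `RatioBound` holds for `K = C(a, b, …, b, a)`, with `2 n` entries `b`, and
`(n + 1) W |a| - n W |a - b|`, for all integers `a`, `b` with `|a| ≥ 2` and all `n ≥ 0`. -/
theorem result :
    (∀ (w : List (ℕ × Bool)) (N : ℕ), ContinuousAt (jones w N) (root N)) ∧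
    (∀ q z : List (ℕ × Bool), IsWord q → IsWord z → ∀ n N : ℕ, 1 ≤ N →
      ‖kashaev (bar q ++ q) N‖ ^ (n + 1) ≤
        ‖kashaev (bar z ++ z) N‖ ^ n * ‖kashaev (amplified q z n) N‖) ∧
    (∀ q z : List (ℕ × Bool), IsWord q → IsWord z → ∀ (n : ℕ) (L U : ℝ),
      OddGrowthAtLeast (bar q ++ q) L → OddGrowthAtMost (bar z ++ z) U →
        RatioBound (amplified q z n) ((n + 1) * L - n * U)) ∧
    ∃ W : ℕ → ℝ, IsVolume W ∧ ∀ (a b : ℤ) (n : ℕ), 2 ≤ a.natAbs →
      RatioBound (word a b n) ((n + 1) * W a.natAbs - n * W (a - b).natAbs) := by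
  refine ⟨cont, fun q z hq hz n N hN => ?_, fun q z hq hz n L U hL hU => ?_, ?_⟩
  · rw [kashaev_norm, kashaev_norm, kashaev_norm]
    exact Pool.Agent.V1199.TB.amp_ineq hN hq hz n
  · refine ratioBound (amplified_pos hq hz n) ?_
    simp only [kashaev_norm]
    refine Pool.Agent.V1199.TB.amplifyS _ hq hz n ?_ ?_
    · intro ε hε
      have h := hL ε hε
      simp only [kashaev_norm] at h
      exact h
    · intro ε hε
      have h := hU ε hε
      simp only [kashaev_norm] at h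
      exact h
  · obtain ⟨W, h0, h1, h2, h3, h4, -, -, h7⟩ := Pool.Agent.V1199.TB.explicit_lower
    refine ⟨W, ⟨h0, h1, h2, h3, h4⟩, fun a b n ha => ratioBound (word_pos a b n) ?_⟩
    simp only [kashaev_norm]
    exact (h7 a b n ha).toS _

end Pool.Agent.Results.MP_b30479_gt.RatioLowerBounds
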