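import Pool.Agent.V1150.RP.E
import Pool.Agent.V1150.RP.H
import Pool.Agent.H756R3.J.Cont
import Pool.Agent.H105R3.JSanCurl
import Pool.Agent.H309R4.Jones.SanU
import Pool.Agent.H550R3.Jones.SanSkein699

/-!
# The Kashaev invariants of amphicheiral two-bridge links are positive (odd `N`)

For a word `w` in `s_1^{±1}`, `s_2^{±1}` let `K(w)` be the two-bridge link (every two-bridge knot and
link arises) with the following (1,1)-tangle: start with one strand and a cup to its right, perform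
the braid `w` on the three strands (the last letter first), close the strands 1 and 2 by a cap; the
third strand leaves.  Let `bar u` be `u` reversed, with `s_1^{±1}` and `s_2^{±1}` replaced by
`s_2^{∓1}` and `s_1^{∓1}`.  If `u` performs first `s_1^{a_1}`, then `s_2^{-a_2}`, and so on, up to
`a_r`, then `K(bar u u)` is `C(a_1, …, a_r, a_r, …, a_1)`; for positive `a_i` these are exactly the
amphicheiral two-bridge links (`q^2 = -1 mod p`), for instance `4_1`, `6_3`, `8_3`, `8_9`, `8_12`.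

Everything is defined from the R-matrix of `U_q(sl_2)`, with `v = q^{1/2}` and
`{k} = v^k - v^{-k}`.  `J_N(K(w))` is the value of the `N`-coloured Jones polynomial (unknot `= 1`) at
`v = exp (π i / N)`, that is `q = exp (2 π i / N)`; every letter of `w` is normalised as a crossing of
parallel strands, so that it is defined up to a power of `v^{N^2 - 1}` (framing, orientation).  For
`w = bar u u` the corrections for the antiparallel crossings of `u` and `bar u` cancel, so that for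
knots `kashaev (bar u ++ u) N` is exactly `J_N`.  These links are isotopic to their mirror images, and
it is clear that `J_N` is real.  The main point is that it is a positive real number, for every `N`
and every `u`.
-/

set_option autoImplicit false

namespace Pool.Agent.Results.MP_b30479_gt.TwoBridgeAmphicheiral

open Finset Filter Topology

/-! ### The coloured Jones polynomial -/

/-- `{n} = v^n - v^{-n}` -/
noncomputable def br (v : ℂ) (n : ℤ) : ℂ := v ^ n - v ^ (-n)

/-- `{n}! = {1} {2} ⋯ {n}` -/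
noncomputable def brf (v : ℂ) (n : ℕ) : ℂ := ∏ j ∈ range n, br v ((j : ℤ) + 1)

/-- The positive crossing: the R-matrix of `U_q(sl_2)` on `V_N ⊗ V_N`, `V_N` with basis
`e_0, …, e_{N-1}`, times the framing factor `v^{-(N^2-1)/2}`; `crossP N v p q` is the coefficient
of `e_{p.1} ⊗ e_{p.2}` in the image of `e_{q.1} ⊗ e_{q.2}`:
`e_i ⊗ e_j ↦ ∑_n v^{-(N-1)(1+i+j) + 2(i-n)(j+n) + n(n-1)/2}
({j+n}! / ({j}! {n}!)) ∏_{t<n} {N-i+t} e_{j+n} ⊗ e_{i-n}`. -/
noncomputable def crossP (N : ℕ) (v : ℂ) : Matrix (Fin N × Fin N) (Fin N × Fin N) ℂ :=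
  fun p q => if (p.1 : ℕ) + p.2 = q.1 + q.2 ∧ (q.2 : ℕ) ≤ p.1 then
    v ^ (-((N : ℤ) - 1) * (1 + (q.1 : ℕ) + (q.2 : ℕ)) + 2 * (p.1 : ℕ) * (p.2 : ℕ)) *
      v ^ (((p.1 : ℕ) - q.2) * ((p.1 : ℕ) - q.2 - 1) / 2) *
      (brf v p.1 / (brf v q.2 * brf v ((p.1 : ℕ) - q.2))) *
      ∏ t ∈ range ((p.1 : ℕ) - q.2), br v ((N : ℤ) - (q.1 : ℕ) + t)
    else 0

/-- The negative crossing, inverse of `crossP N v`:
`e_i ⊗ e_j ↦ ∑_n (-1)^n v^{(N-1)(1+i+j) - 2ij - n(n-1)/2}
({i+n}! / ({i}! {n}!)) ∏_{t<n} {N-j+t} e_{j-n} ⊗ e_{i+n}`. -/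
noncomputable def crossN (N : ℕ) (v : ℂ) : Matrix (Fin N × Fin N) (Fin N × Fin N) ℂ :=
  fun p q => if (p.1 : ℕ) + p.2 = q.1 + q.2 ∧ (q.1 : ℕ) ≤ p.2 then
    (-1) ^ ((p.2 : ℕ) - q.1) *
      v ^ (((N : ℤ) - 1) * (1 + (q.1 : ℕ) + (q.2 : ℕ)) - 2 * (q.1 : ℕ) * (q.2 : ℕ)) /
      v ^ (((p.2 : ℕ) - q.1) * ((p.2 : ℕ) - q.1 - 1) / 2) *
      (brf v p.2 / (brf v q.1 * brf v ((p.2 : ℕ) - q.1))) *
      ∏ t ∈ range ((p.2 : ℕ) - q.1), br v ((N : ℤ) - (q.2 : ℕ) + t)
    else 0

/-- The crossing `A` on the strands number `k` and `k + 1` (counted from `0`) of `n` strands. -/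
def gen {ι : Type} [DecidableEq ι] (A : Matrix (ι × ι) (ι × ι) ℂ) (n k : ℕ) :
    Matrix (Fin n → ι) (Fin n → ι) ℂ :=
  fun s t => if h : k + 1 < n then
    (if ∀ j : Fin n, (j : ℕ) ≠ k → (j : ℕ) ≠ k + 1 → s j = t j then
      A (s ⟨k, by omega⟩, s ⟨k + 1, h⟩) (t ⟨k, by omega⟩, t ⟨k + 1, h⟩) else 0)
    else (if s = t then 1 else 0)

/-- The operator of a braid word on `n` strands (the last letter acts first): the letter
`(k, true)` is the crossing `P`, the letter `(k, false)` the crossing `Q` on the strands number `k`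
and `k + 1`. -/
def rep {ι : Type} [Fintype ι] [DecidableEq ι] (P Q : Matrix (ι × ι) (ι × ι) ℂ) (n : ℕ)
    (w : List (ℕ × Bool)) : Matrix (Fin n → ι) (Fin n → ι) ℂ :=
  (w.map fun g => gen (if g.2 then P else Q) n g.1).prod

/-- The coefficients of the invariant vector `∑_k kap k e_k ⊗ e_{N-1-k}` of `V_N ⊗ V_N`:
`kap k = (-1)^k v^{k(N-2-k)} {k}! {N-1-k}! / {N-1}!`. -/
noncomputable def kap (N : ℕ) (v : ℂ) (k : ℕ) : ℂ :=
  (-1) ^ k * v ^ ((k : ℤ) * ((N : ℤ) - 2 - k)) * (brf v k * brf v (N - 1 - k) / brf v (N - 1))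

/-- The cup: the invariant vector of `V_N ⊗ V_N`. -/
noncomputable def cup (N : ℕ) (v : ℂ) (p : Fin N × Fin N) : ℂ :=
  if (p.1 : ℕ) + p.2 = N - 1 then kap N v p.1 else 0

/-- The cap: the invariant linear form on `V_N ⊗ V_N`. -/
noncomputable def cap (N : ℕ) (v : ℂ) (p : Fin N × Fin N) : ℂ :=
  if (p.1 : ℕ) + p.2 = N - 1 then (kap N v p.2)⁻¹ else 0

/-- The operator `V_N → V_N` of the (1,1)-tangle: a cup between the strands 2 and 3, the braid word
`w` on three strands, a cap between the strands 1 and 2. -/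
noncomputable def tangle (N : ℕ) (w : List (ℕ × Bool)) (v : ℂ) : Matrix (Fin N) (Fin N) ℂ :=
  fun i j => ∑ p : Fin N × Fin N, ∑ q : Fin N × Fin N,
    cap N v p * rep (crossP N v) (crossN N v) 3 w ![p.1, p.2, i] ![j, q.1, q.2] * cup N v q

/-- The `N`-coloured Jones polynomial of the two-bridge link `K(w)` (unknot `= 1`; all components
coloured `N`) at `q = v^2`, up to a power of `v^{N^2 - 1}` (framing: every letter is normalised as a
crossing of parallel strands): the entry of the (1,1)-tangle operator at the highest weight vector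
`e_0`. -/
noncomputable def jones (w : List (ℕ × Bool)) (N : ℕ) (v : ℂ) : ℂ :=
  if h : 0 < N then tangle N w v ⟨0, h⟩ ⟨0, h⟩ else 0

/-- `v_N = exp (π i / N)`, so that `q = v_N^2 = exp (2 π i / N)`. -/
noncomputable def root (N : ℕ) : ℂ := Complex.exp (Real.pi * Complex.I / N)

/-- The Kashaev invariant of `K(w)` (up to a root of unity, see above). -/
noncomputable def kashaev (w : List (ℕ × Bool)) (N : ℕ) : ℂ := jones w N (root N)

/-- A word in the letters `s_1^{±1}` (number `0`) and `s_2^{±1}` (number `1`); `true` is the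
positive crossing. -/
def IsWord (w : List (ℕ × Bool)) : Prop := ∀ l ∈ w, l.1 < 2

/-- The letter `s_2^{∓1}` for `s_1^{±1}` and `s_1^{∓1}` for `s_2^{±1}`. -/
def flip (l : ℕ × Bool) : ℕ × Bool := (1 - l.1, !l.2)

/-- The word `bar w`. -/
def bar (w : List (ℕ × Bool)) : List (ℕ × Bool) := (w.map flip).reverse

/-- Convergence of the sequence `x` to `z` in `ℂ / i π² ℤ`: after adding suitable elements of
`i π² ℤ` to its terms, `x` converges to `z`. -/
def ConvMod (x : ℕ → ℂ) (z : ℂ) : Prop :=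
  ∃ m : ℕ → ℤ, Tendsto (fun k => x k + Complex.I * Real.pi ^ 2 * m k) atTop (𝓝 z)

/-! ### Checks of the definitions (not part of the result) -/

/-- For `N = 2` the crossings satisfy the skein relation of the Jones polynomial. -/
theorem skein (v : ℂ) (hv : v ≠ 0) (h1 : br v 1 ≠ 0) :
    v ^ 2 • crossP 2 v - (v ^ 2)⁻¹ • crossN 2 v =
      (v - v⁻¹) • (1 : Matrix (Fin 2 × Fin 2) (Fin 2 × Fin 2) ℂ) :=
  Pool.Agent.H550R3.Jones.taskSanSkein v hv h1

/-- The two crossings are inverse to each other. -/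
theorem cross_inverse (N : ℕ) (v : ℂ) (hv : v ≠ 0)
    (h : ∀ k : ℕ, 0 < k → k < N → br v k ≠ 0) :
    crossP N v * crossN N v = 1 ∧ crossN N v * crossP N v = 1 :=
  Pool.Agent.H309R4.Jones.SanI.taskSanInv Pool.Agent.H345J.taskMod Pool.Agent.H345J.taskInv
    Pool.Agent.H559R3.J.taskCross N v ⟨hv, h⟩

/-- The Yang-Baxter equation, for every colour. -/
theorem yang_baxter (N : ℕ) (v : ℂ) (hv : v ≠ 0) (h : ∀ k : ℕ, 0 < k → k < N → br v k ≠ 0) :
    gen (crossP N v) 3 0 * gen (crossP N v) 3 1 * gen (crossP N v) 3 0 =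
      gen (crossP N v) 3 1 * gen (crossP N v) 3 0 * gen (crossP N v) 3 1 :=
  Pool.Agent.H927R2.J.SanYB.taskSanYB Pool.Agent.H345J.taskMod Pool.Agent.H345J.taskInt
    Pool.Agent.H345J.taskInv Pool.Agent.H667J.taskHex1 Pool.Agent.H22R3.J.taskNat
    Pool.Agent.H559R3.J.taskCross N v ⟨hv, h⟩

/-- Zigzag: without crossings the tangle is trivial (the unknot has the value `1`). -/
theorem zigzag (N : ℕ) (v : ℂ) (hv : v ≠ 0) (h : ∀ k : ℕ, 0 < k → k < N → br v k ≠ 0) :
    tangle N [] v = 1 :=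
  Pool.Agent.W709.RT.zigzag hv h

/-- Curls may be removed: the framing is normalised. -/
theorem curl (N : ℕ) (v : ℂ) (hv : v ≠ 0) (h : ∀ k : ℕ, 0 < k → k < N → br v k ≠ 0) :
    (fun i j => ∑ x : Fin N, v ^ ((N : ℤ) - 1 - 2 * (x : ℕ)) * crossP N v (i, x) (j, x)) =
      (1 : Matrix (Fin N) (Fin N) ℂ) ∧
    (fun i j => ∑ x : Fin N, v ^ ((N : ℤ) - 1 - 2 * (x : ℕ)) * crossN N v (i, x) (j, x)) =
      (1 : Matrix (Fin N) (Fin N) ℂ) :=
  Pool.Agent.H105R3.JSan.taskSanCurl N v ⟨hv, h⟩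

/-! ### Comparison with the helper files -/

lemma kashaev_eq {N : ℕ} (hN : 0 < N) (w : List (ℕ × Bool)) :
    kashaev w N = Pool.Agent.V1150.RP.kv N hN w := by
  unfold kashaev jones
  rw [dif_pos hN]
  rfl

lemma pos {u : List (ℕ × Bool)} (hu : IsWord u) :
    Pool.Agent.V1150.RP.PS.Pos (kashaev (bar u ++ u)) := by
  intro N hN
  rw [kashaev_eq hN]
  exact Pool.Agent.V1150.RP.kv_self_pos hN hu

lemma cont (w : List (ℕ × Bool)) (N : ℕ) : ContinuousAt (jones w N) (root N) := by
  unfold jones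
  by_cases h : 0 < N
  · simp only [dif_pos h]
    exact Pool.Agent.W709.RT.tang_cont (Pool.Agent.W709.RT.v0_ne N) Pool.Agent.W709.RT.br_v0 _ _ _
  · simp only [dif_neg h]
    exact continuousAt_const

/-- **The Kashaev invariants of the amphicheiral two-bridge links and the complexified volume
conjecture at odd roots of unity.**
(1) For all words `w` and all `N` the coloured Jones polynomial of `K(w)` is continuous at `v_N`, so
that `kashaev w N` is its value at `q = e^(2 π i / N)` in the usual sense.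
(2) For every word `u` and every `n ≥ 1`, `a_n = J_n(K(bar u u); e^(2 π i / n))` is a positive real
number; in particular it is different from `0`.
(3) For real numbers `V`, `C`, `π log (a_{n+2} / a_n)` converges to `V + i C` in `ℂ / i π² ℤ` along odd
`n` if and only if `C` is an integer multiple of `π²` and `π log (|a_{n+2}| / |a_n|) → V` along odd
`n`. -/
theorem result :
    (∀ (w : List (ℕ × Bool)) (N : ℕ), ContinuousAt (jones w N) (root N)) ∧
    ∀ u : List (ℕ × Bool), IsWord u →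
      (∀ n : ℕ, 1 ≤ n → ∃ r : ℝ, 0 < r ∧ kashaev (bar u ++ u) n = r) ∧
      ∀ V C : ℝ,
        ConvMod (fun k : ℕ => Real.pi * Complex.log (kashaev (bar u ++ u) (2 * k + 3) /
          kashaev (bar u ++ u) (2 * k + 1))) (V + Complex.I * C) ↔
        (∃ j : ℤ, C = Real.pi ^ 2 * j) ∧
          Tendsto (fun k : ℕ => Real.pi * Real.log (‖kashaev (bar u ++ u) (2 * k + 3)‖ /
            ‖kashaev (bar u ++ u) (2 * k + 1)‖)) atTop (𝓝 V) :=
  ⟨cont, fun _ hu => ⟨pos hu, (pos hu).odd_iff⟩⟩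

end Pool.Agent.Results.MP_b30479_gt.TwoBridgeAmphicheiral
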