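import Pool.Agent.V1150.RP.G
import Pool.Agent.V1150.RP.Lims
import Pool.Agent.H756R3.J.Cont
import Pool.Agent.H105R3.JSanCurl
import Pool.Agent.H309R4.Jones.SanU
import Pool.Agent.H550R3.Jones.SanSkein699

/-!
# Two-bridge links: bounds for the growth of the coloured Jones polynomials at odd roots of unity,
# and for the possible values in the complexified volume conjecture at odd roots of unity

For a word `w` in `s_1^{±1}`, `s_2^{±1}` let `K(w)` be the two-bridge link (every two-bridge knot and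
link arises) with the following (1,1)-tangle: start with one strand and a cup to its right, perform
the braid `w` on the three strands (the last letter first), close the strands 1 and 2 by a cap; the
third strand leaves.  The word which performs `s_1^{a_1}`, then `s_2^{-a_2}`, then `s_1^{a_3}`, …,
finally `s_2^{-a_{2m}}` gives `C(a_1, a_2, …, a_{2m})`.

Everything is defined from the R-matrix of `U_q(sl_2)`, with `v = q^{1/2}` and
`{k} = v^k - v^{-k}`.  The Kashaev invariants are the values of the `N`-coloured Jones polynomials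
(unknot `= 1`) at `v = exp (π i / N)`, that is `q = exp (2 π i / N)`.  Here every letter of a word is
normalised as a crossing of parallel strands, so that `kashaev w N` is the Kashaev invariant of `K(w)`
up to a power of `v^{N^2 - 1}` (framing, orientation), a root of unity, which does not change the
absolute value.

The main point: the exponential growth rate of `|⟨C(a_1, …, a_{2m})⟩_N|` is at most the mean value of
the volumes of `C(a_1, a_1)` and `C(a_{2m}, a_{2m})` and of the closed 3-braids `s_1^{a_i} s_2^{-a_i}`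
with their axes, `1 < i < 2 m`.
-/

set_option autoImplicit false

namespace Pool.Agent.Results.MP_b30479_gt.TwoBridgeGrowth

open Finset Filter Topology

/-! ### The coloured Jones polynomial -/

/-- `{n} = v^n - v^{-n}` -/
noncomputable def br (v : ℂ) (n : ℤ) : ℂ := v ^ n - v ^ (-n)

/-- `{n}! = {1} {2} ⋯ {n}` -/
noncomputable def brf (v : ℂ) (n : ℕ) : ℂ := ∏ j ∈ range n, br v ((j : ℤ) + 1)

/-- The positive crossing: the R-matrix of `U_q(sl_2)` on `V_N ⊗ V_N`, `V_N` with basis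
`e_0, …, e_{N-1}`, times the framing factor `v^{-(N^2-1)/2}`; `crossP N v p q` is the coefficient
of `e_{p.1} ⊗ e_{p.2}` in the image of `e_{q.1} ⊗ e_{q.2}`:
`e_i ⊗ e_j ↦ ∑_n v^{-(N-1)(1+i+j) + 2(i-n)(j+n) + n(n-1)/2}
({j+n}! / ({j}! {n}!)) ∏_{t<n} {N-i+t} e_{j+n} ⊗ e_{i-n}`. -/
noncomputable def crossP (N : ℕ) (v : ℂ) : Matrix (Fin N × Fin N) (Fin N × Fin N) ℂ :=
  fun p q => if (p.1 : ℕ) + p.2 = q.1 + q.2 ∧ (q.2 : ℕ) ≤ p.1 then
    v ^ (-((N : ℤ) - 1) * (1 + (q.1 : ℕ) + (q.2 : ℕ)) + 2 * (p.1 : ℕ) * (p.2 : ℕ)) *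
      v ^ (((p.1 : ℕ) - q.2) * ((p.1 : ℕ) - q.2 - 1) / 2) *
      (brf v p.1 / (brf v q.2 * brf v ((p.1 : ℕ) - q.2))) *
      ∏ t ∈ range ((p.1 : ℕ) - q.2), br v ((N : ℤ) - (q.1 : ℕ) + t)
    else 0

/-- The negative crossing, inverse of `crossP N v`:
`e_i ⊗ e_j ↦ ∑_n (-1)^n v^{(N-1)(1+i+j) - 2ij - n(n-1)/2}
({i+n}! / ({i}! {n}!)) ∏_{t<n} {N-j+t} e_{j-n} ⊗ e_{i+n}`. -/
noncomputable def crossN (N : ℕ) (v : ℂ) : Matrix (Fin N × Fin N) (Fin N × Fin N) ℂ :=
  fun p q => if (p.1 : ℕ) + p.2 = q.1 + q.2 ∧ (q.1 : ℕ) ≤ p.2 then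
    (-1) ^ ((p.2 : ℕ) - q.1) *
      v ^ (((N : ℤ) - 1) * (1 + (q.1 : ℕ) + (q.2 : ℕ)) - 2 * (q.1 : ℕ) * (q.2 : ℕ)) /
      v ^ (((p.2 : ℕ) - q.1) * ((p.2 : ℕ) - q.1 - 1) / 2) *
      (brf v p.2 / (brf v q.1 * brf v ((p.2 : ℕ) - q.1))) *
      ∏ t ∈ range ((p.2 : ℕ) - q.1), br v ((N : ℤ) - (q.2 : ℕ) + t)
    else 0

/-- The crossing `A` on the strands number `k` and `k + 1` (counted from `0`) of `n` strands. -/
def gen {ι : Type} [DecidableEq ι] (A : Matrix (ι × ι) (ι × ι) ℂ) (n k : ℕ) :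
    Matrix (Fin n → ι) (Fin n → ι) ℂ :=
  fun s t => if h : k + 1 < n then
    (if ∀ j : Fin n, (j : ℕ) ≠ k → (j : ℕ) ≠ k + 1 → s j = t j then
      A (s ⟨k, by omega⟩, s ⟨k + 1, h⟩) (t ⟨k, by omega⟩, t ⟨k + 1, h⟩) else 0)
    else (if s = t then 1 else 0)

/-- The operator of a braid word on `n` strands (the last letter acts first): the letter
`(k, true)` is the crossing `P`, the letter `(k, false)` the crossing `Q` on the strands number `k`
and `k + 1`. -/
def rep {ι : Type} [Fintype ι] [DecidableEq ι] (P Q : Matrix (ι × ι) (ι × ι) ℂ) (n : ℕ)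
    (w : List (ℕ × Bool)) : Matrix (Fin n → ι) (Fin n → ι) ℂ :=
  (w.map fun g => gen (if g.2 then P else Q) n g.1).prod

/-- The coefficients of the invariant vector `∑_k kap k e_k ⊗ e_{N-1-k}` of `V_N ⊗ V_N`:
`kap k = (-1)^k v^{k(N-2-k)} {k}! {N-1-k}! / {N-1}!`. -/
noncomputable def kap (N : ℕ) (v : ℂ) (k : ℕ) : ℂ :=
  (-1) ^ k * v ^ ((k : ℤ) * ((N : ℤ) - 2 - k)) * (brf v k * brf v (N - 1 - k) / brf v (N - 1))

/-- The cup: the invariant vector of `V_N ⊗ V_N`. -/
noncomputable def cup (N : ℕ) (v : ℂ) (p : Fin N × Fin N) : ℂ :=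
  if (p.1 : ℕ) + p.2 = N - 1 then kap N v p.1 else 0

/-- The cap: the invariant linear form on `V_N ⊗ V_N`. -/
noncomputable def cap (N : ℕ) (v : ℂ) (p : Fin N × Fin N) : ℂ :=
  if (p.1 : ℕ) + p.2 = N - 1 then (kap N v p.2)⁻¹ else 0

/-- The operator `V_N → V_N` of the (1,1)-tangle: a cup between the strands 2 and 3, the braid word
`w` on three strands, a cap between the strands 1 and 2. -/
noncomputable def tangle (N : ℕ) (w : List (ℕ × Bool)) (v : ℂ) : Matrix (Fin N) (Fin N) ℂ :=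
  fun i j => ∑ p : Fin N × Fin N, ∑ q : Fin N × Fin N,
    cap N v p * rep (crossP N v) (crossN N v) 3 w ![p.1, p.2, i] ![j, q.1, q.2] * cup N v q

/-- The `N`-coloured Jones polynomial of the two-bridge link `K(w)` (unknot `= 1`; all components
coloured `N`) at `q = v^2`, up to a power of `v^{N^2 - 1}` (framing: every letter is normalised as a
crossing of parallel strands): the entry of the (1,1)-tangle operator at the highest weight vector
`e_0`. -/
noncomputable def jones (w : List (ℕ × Bool)) (N : ℕ) (v : ℂ) : ℂ :=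
  if h : 0 < N then tangle N w v ⟨0, h⟩ ⟨0, h⟩ else 0

/-- `v_N = exp (π i / N)`, so that `q = v_N^2 = exp (2 π i / N)`. -/
noncomputable def root (N : ℕ) : ℂ := Complex.exp (Real.pi * Complex.I / N)

/-- The Kashaev invariant of `K(w)` (up to a root of unity, see above). -/
noncomputable def kashaev (w : List (ℕ × Bool)) (N : ℕ) : ℂ := jones w N (root N)

/-- A word in the letters `s_1^{±1}` (number `0`) and `s_2^{±1}` (number `1`); `true` is the
positive crossing. -/
def IsWord (w : List (ℕ × Bool)) : Prop := ∀ l ∈ w, l.1 < 2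

/-- The letter `s_2^{∓1}` for `s_1^{±1}` and `s_1^{∓1}` for `s_2^{±1}`. -/
def flip (l : ℕ × Bool) : ℕ × Bool := (1 - l.1, !l.2)

/-- The word `bar w`. -/
def bar (w : List (ℕ × Bool)) : List (ℕ × Bool) := (w.map flip).reverse

/-- The word `(bar u u)^n`. -/
def power (u : List (ℕ × Bool)) (n : ℕ) : List (ℕ × Bool) := (List.replicate n (bar u ++ u)).flatten

/-- The word which performs `s_1^b`, then the syllables `s_1^n` (for `(true, n)`) and `s_2^{-n}` (for
`(false, n)`) of the list `l` (the last one first), then `s_2^{-a}`.  If the syllables alternate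
this is the two-bridge link `C(b, …, a)` with an even number of entries. -/
def word (a : ℕ) (l : List (Bool × ℕ)) (b : ℕ) : List (ℕ × Bool) :=
  List.replicate a (1, false) ++
    ((l.map fun s => List.replicate s.2 (if s.1 then (0, true) else (1, false))).flatten ++
      List.replicate b (0, true))

/-! ### The hyperbolic volumes

The complement of `C(A, A)` has a canonical ideal triangulation (Sakuma and Weeks; Gueritaud and
Futer) with `2 A - 3` layers of two ideal tetrahedra.  Its angle structures are parametrised by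
`w_0, …, w_{2A-2}` with `w_0 = w_{2A-2} = π`.  The complement of `L((s_1^A s_2^{-A})^n)` is a bundle
over the circle, with a layered ideal triangulation with `2 A n` layers of two ideal tetrahedra.  By
Casson and Rivin the maximum of the volume over the angle structures is the hyperbolic volume. -/

/-- Lobachevsky's function `Λ(x) = -∫_0^x log |2 sin t| dt`. -/
noncomputable def Lob (x : ℝ) : ℝ := -∫ t in (0 : ℝ)..x, Real.log |2 * Real.sin t|

/-- first dihedral angle of the tetrahedra of layer `i` -/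
noncomputable def angXC (A : ℕ) (w : ℕ → ℝ) (i : ℕ) : ℝ :=
  if i + 1 = A then (w (i - 1) + w i - w (i + 1)) / 2 else (w (i - 1) + w (i + 1)) / 2

/-- second dihedral angle of the tetrahedra of layer `i` -/
noncomputable def angYC (A : ℕ) (w : ℕ → ℝ) (i : ℕ) : ℝ :=
  if i + 1 = A then (-w (i - 1) + w i + w (i + 1)) / 2
  else (2 * w i - w (i - 1) - w (i + 1)) / 2

/-- third dihedral angle of the tetrahedra of layer `i` -/
noncomputable def angZC (w : ℕ → ℝ) (i : ℕ) : ℝ := Real.pi - w i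

/-- the angle structures -/
def IsAngleC (A : ℕ) (w : ℕ → ℝ) : Prop :=
  w 0 = Real.pi ∧ w (A + A - 2) = Real.pi ∧
    ∀ i, 1 ≤ i → i ≤ A + A - 3 → 0 < angXC A w i ∧ 0 < angYC A w i ∧ 0 < angZC w i

/-- the volume of an angle structure: two ideal tetrahedra in every layer -/
noncomputable def volC (A : ℕ) (w : ℕ → ℝ) : ℝ :=
  ∑ i ∈ Icc 1 (A + A - 3), 2 * (Lob (angXC A w i) + Lob (angYC A w i) + Lob (angZC w i))

/-- First dihedral angle of the tetrahedra of layer `i` (hinge layers: `A` divides `i`). -/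
noncomputable def angXL (A : ℕ) (w : ℤ → ℝ) (i : ℤ) : ℝ :=
  if (A : ℤ) ∣ i then (w (i - 1) + w i - w (i + 1)) / 2 else (w (i - 1) + w (i + 1)) / 2

/-- Second dihedral angle of the tetrahedra of layer `i`. -/
noncomputable def angYL (A : ℕ) (w : ℤ → ℝ) (i : ℤ) : ℝ :=
  if (A : ℤ) ∣ i then (-w (i - 1) + w i + w (i + 1)) / 2 else (2 * w i - w (i - 1) - w (i + 1)) / 2

/-- Third dihedral angle of the tetrahedra of layer `i`. -/
noncomputable def angZL (w : ℤ → ℝ) (i : ℤ) : ℝ := Real.pi - w i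

/-- Angle structures on the layered triangulation of the complement of `L(s_1^A s_2^{-A})^n`: functions on the
layers (with period `2 A n`) with positive dihedral angles. -/
def IsAngleL (A n : ℕ) (w : ℤ → ℝ) : Prop :=
  (∀ i, w (i + 2 * A * n) = w i) ∧ ∀ i, 0 < angXL A w i ∧ 0 < angYL A w i ∧ 0 < angZL w i

/-- The volume of an angle structure: two ideal tetrahedra in each of the `2 A n` layers, each of
volume `Λ(x) + Λ(y) + Λ(z)`. -/
noncomputable def volL (A n : ℕ) (w : ℤ → ℝ) : ℝ :=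
  ∑ i ∈ range (2 * A * n), 2 * (Lob (angXL A w i) + Lob (angYL A w i) + Lob (angZL w i))

/-! ### The statements -/

/-- The relation of Q1, with `v + i c` in place of `vol + i CS`: the invariants at odd `n` are
eventually different from `0`, and `π log (a_{n+2} / a_n)` converges to `v + i c` in `ℂ / i π² ℤ`. -/
def Relation (J : ℕ → ℂ) (v c : ℝ) : Prop :=
  (∀ᶠ k : ℕ in atTop, J (2 * k + 1) ≠ 0) ∧
  ∃ m : ℕ → ℤ, Tendsto (fun k : ℕ => Real.pi * Complex.log (J (2 * k + 3) / J (2 * k + 1)) +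
    Complex.I * Real.pi ^ 2 * m k) atTop (𝓝 (v + Complex.I * c))

/-- The bound `U` from above: `limsup 2 π log |J_N| / N ≤ U` along odd `N = 2 k + 1`, and if the relation of Q1 holds with the
real numbers `v`, `c` (in place of the volume and the Chern-Simons invariant) then `v ≤ U`. -/
def Upper (J : ℕ → ℂ) (U : ℝ) : Prop :=
  (∀ ε : ℝ, 0 < ε → ∀ᶠ k : ℕ in atTop,
    ‖J (2 * k + 1)‖ ≤ Real.exp ((U / (2 * Real.pi) + ε) * ((2 * k + 1 : ℕ) : ℝ))) ∧
  ∀ v c : ℝ, Relation J v c → v ≤ U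

/-- The bound `L` from below: `liminf 2 π log |J_N| / N ≥ L` along odd `N = 2 k + 1`, and if the relation of Q1 holds with the
real numbers `v`, `c` then `L ≤ v`. -/
def Lower (J : ℕ → ℂ) (L : ℝ) : Prop :=
  (∀ ε : ℝ, 0 < ε → ∀ᶠ k : ℕ in atTop,
    Real.exp ((L / (2 * Real.pi) - ε) * ((2 * k + 1 : ℕ) : ℝ)) ≤ ‖J (2 * k + 1)‖) ∧
  ∀ v c : ℝ, Relation J v c → L ≤ v

/-- The bounds.  Here `V n` (for `n = 1`, `n = 2` and `n ≥ 4`) is the hyperbolic volume
of the complement of `L(s_1^n s_2^{-n})` (closed 3-braid with its axis), `W n` (for `n ≥ 2`) is that of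
`C(n, n)`, and `W 0 = 0`; `W 2 = 4 Λ(π/6) = Vol (4_1)`.
(a) If `a`, `b` are different from `1` and the exponents `n_1, …, n_k` of the syllables are different
from `0` and `3` then `(W a + V n_1 + ⋯ + V n_k + W b) / 2` is a bound from above for the
two-bridge link `K` of the word `s_2^{-a} ⋯ s_1^b` with these syllables between.
(b) `n W A` is a bound from below for `K = C(A, …, A)` with `2 n` entries, `A ≥ 2`. -/
def Bounds : Prop :=
  ∃ V W : ℕ → ℝ, V 1 = 8 * Lob (Real.pi / 6) ∧ V 2 = 16 * Lob (Real.pi / 4) ∧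
    (∀ A, 4 ≤ A → IsGreatest {x : ℝ | ∃ w, IsAngleL A 1 w ∧ volL A 1 w = x} (V A)) ∧
    W 0 = 0 ∧ W 2 = 4 * Lob (Real.pi / 6) ∧ W 3 = 8 * Lob (Real.pi / 6) ∧
    (∀ A, 4 ≤ A → IsGreatest {x : ℝ | ∃ w, IsAngleC A w ∧ volC A w = x} (W A)) ∧
    (∀ (a b : ℕ) (l : List (Bool × ℕ)), a ≠ 1 → b ≠ 1 →
      (∀ s ∈ l, s.2 = 1 ∨ s.2 = 2 ∨ 4 ≤ s.2) →
        Upper (kashaev (word a l b)) ((W a + W b + (l.map fun s => V s.2).sum) / 2)) ∧
    ∀ A n : ℕ, 2 ≤ A → Lower (kashaev (power (List.replicate A (0, true)) n)) (n * W A)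

/-! ### Checks of the definitions (not part of the result) -/

/-- For `N = 2` the crossings satisfy the skein relation of the Jones polynomial. -/
theorem skein (v : ℂ) (hv : v ≠ 0) (h1 : br v 1 ≠ 0) :
    v ^ 2 • crossP 2 v - (v ^ 2)⁻¹ • crossN 2 v =
      (v - v⁻¹) • (1 : Matrix (Fin 2 × Fin 2) (Fin 2 × Fin 2) ℂ) :=
  Pool.Agent.H550R3.Jones.taskSanSkein v hv h1

/-- The two crossings are inverse to each other. -/
theorem cross_inverse (N : ℕ) (v : ℂ) (hv : v ≠ 0)
    (h : ∀ k : ℕ, 0 < k → k < N → br v k ≠ 0) :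
    crossP N v * crossN N v = 1 ∧ crossN N v * crossP N v = 1 :=
  Pool.Agent.H309R4.Jones.SanI.taskSanInv Pool.Agent.H345J.taskMod Pool.Agent.H345J.taskInv
    Pool.Agent.H559R3.J.taskCross N v ⟨hv, h⟩

/-- The Yang-Baxter equation, for every colour. -/
theorem yang_baxter (N : ℕ) (v : ℂ) (hv : v ≠ 0) (h : ∀ k : ℕ, 0 < k → k < N → br v k ≠ 0) :
    gen (crossP N v) 3 0 * gen (crossP N v) 3 1 * gen (crossP N v) 3 0 =
      gen (crossP N v) 3 1 * gen (crossP N v) 3 0 * gen (crossP N v) 3 1 :=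
  Pool.Agent.H927R2.J.SanYB.taskSanYB Pool.Agent.H345J.taskMod Pool.Agent.H345J.taskInt
    Pool.Agent.H345J.taskInv Pool.Agent.H667J.taskHex1 Pool.Agent.H22R3.J.taskNat
    Pool.Agent.H559R3.J.taskCross N v ⟨hv, h⟩

/-- Zigzag: without crossings the tangle is trivial (the unknot has the value `1`). -/
theorem zigzag (N : ℕ) (v : ℂ) (hv : v ≠ 0) (h : ∀ k : ℕ, 0 < k → k < N → br v k ≠ 0) :
    tangle N [] v = 1 :=
  Pool.Agent.W709.RT.zigzag hv h

/-- Curls may be removed: the framing is normalised. -/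
theorem curl (N : ℕ) (v : ℂ) (hv : v ≠ 0) (h : ∀ k : ℕ, 0 < k → k < N → br v k ≠ 0) :
    (fun i j => ∑ x : Fin N, v ^ ((N : ℤ) - 1 - 2 * (x : ℕ)) * crossP N v (i, x) (j, x)) =
      (1 : Matrix (Fin N) (Fin N) ℂ) ∧
    (fun i j => ∑ x : Fin N, v ^ ((N : ℤ) - 1 - 2 * (x : ℕ)) * crossN N v (i, x) (j, x)) =
      (1 : Matrix (Fin N) (Fin N) ℂ) :=
  Pool.Agent.H105R3.JSan.taskSanCurl N v ⟨hv, h⟩

/-! ### Comparison with the helper files -/

lemma kashaev_eq {N : ℕ} (hN : 0 < N) (w : List (ℕ × Bool)) :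
    kashaev w N = Pool.Agent.V1150.RP.kv N hN w := by
  unfold kashaev jones
  rw [dif_pos hN]
  rfl

lemma kashaev_norm {N : ℕ} (hN : 0 < N) (w : List (ℕ × Bool)) :
    ‖kashaev w N‖ = Pool.Agent.V1150.RP.kn w N := by
  unfold Pool.Agent.V1150.RP.kn
  rw [dif_pos hN, kashaev_eq hN]

lemma bar_eq (w : List (ℕ × Bool)) : bar w = Pool.Agent.W715.VC.dual w := rfl

lemma power_eq (u : List (ℕ × Bool)) (n : ℕ) : power u n =
    Pool.Agent.W715.VC.wpow (Pool.Agent.W715.VC.dual u ++ u) n := rfl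

lemma up_of {w : List (ℕ × Bool)} {U : ℝ} (h : ∀ ε : ℝ, 0 < ε → ∀ᶠ N : ℕ in atTop,
    ‖kashaev w N‖ ≤ Real.exp ((U / (2 * Real.pi) + ε) * N)) : Upper (kashaev w) U := by
  have hL : Pool.Agent.V1150.RP.Lims.Up (kashaev w) U := h
  have hφ : Tendsto (fun k : ℕ => 2 * k + 1) atTop atTop :=
    tendsto_atTop_mono (fun k => by simp only [id]; omega) tendsto_id
  refine ⟨fun ε hε => hφ.eventually (h ε hε), fun v c hR => ?_⟩
  exact hL.le hφ hR.1 (Pool.Agent.V1150.RP.Lims.odd hR.1 hR.2)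

lemma lo_of {w : List (ℕ × Bool)} {L : ℝ} (h : ∀ ε : ℝ, 0 < ε → ∀ᶠ N : ℕ in atTop,
    Real.exp ((L / (2 * Real.pi) - ε) * N) ≤ ‖kashaev w N‖) : Lower (kashaev w) L := by
  have hL : Pool.Agent.V1150.RP.Lims.Lo (kashaev w) L := h
  have hφ : Tendsto (fun k : ℕ => 2 * k + 1) atTop atTop :=
    tendsto_atTop_mono (fun k => by simp only [id]; omega) tendsto_id
  refine ⟨fun ε hε => hφ.eventually (h ε hε), fun v c hR => ?_⟩
  exact hL.le hφ (Pool.Agent.V1150.RP.Lims.odd hR.1 hR.2)

lemma bounds : Bounds := by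
  obtain ⟨V, W, h1, h1', h2, h3, h3', h3'', h4, h5, h6⟩ := Pool.Agent.V1150.RP.explicit2
  refine ⟨V, W, h1, h1', h2, h3, h3', h3'', h4, ?_, ?_⟩
  · intro a b l ha hb hl
    refine up_of fun ε hε => ?_
    filter_upwards [h5 a b l ha hb hl ε hε, eventually_gt_atTop 0] with N hN hN0
    rw [kashaev_norm hN0]
    exact hN
  · intro A n hA
    refine lo_of fun ε hε => ?_
    filter_upwards [h6 A n hA ε hε, eventually_gt_atTop 0] with N hN hN0
    rw [kashaev_norm hN0, power_eq]
    have e : Pool.Agent.W715.VC.dual (List.replicate A (0, true)) = List.replicate A (1, false) :=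
      Pool.Agent.V1150.RP.dual_uA A
    rw [e]
    exact hN

/-- **Two-bridge links: bounds for the growth at odd roots of unity, and for the real part in Q1.**
(1) For all words `w` and all `N` the coloured Jones polynomial of `K(w)` is continuous at `v_N`, so
that `kashaev w N` is its value at `q = e^(2 π i / N)` in the usual sense.
(2) The bounds.  For instance, if the relation of Q1 holds for `C(a, b)`, `a, b ≥ 2`, with some
`v + i c` then `v ≤ (Vol C(a, a) + Vol C(b, b)) / 2`, and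
`n Vol C(A, A) ≤ v ≤ Vol C(A, A) + (n - 1) Vol L(s_1^A s_2^{-A})` for the link `C(A, …, A)` with
`2 n` entries, `A = 2` or `A ≥ 4`. -/
theorem result :
    (∀ (w : List (ℕ × Bool)) (N : ℕ), ContinuousAt (jones w N) (root N)) ∧
    Bounds := by
  refine ⟨fun w N => ?_, bounds⟩
  unfold jones
  by_cases h : 0 < N
  · simp only [dif_pos h]
    exact Pool.Agent.W709.RT.tang_cont (Pool.Agent.W709.RT.v0_ne N) Pool.Agent.W709.RT.br_v0 _ _ _
  · simp only [dif_neg h]
    exact continuousAt_const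

end Pool.Agent.Results.MP_b30479_gt.TwoBridgeGrowth
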